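import Pool.Agent.Helper41.NC.Suff

/-!
# Counting form of interlacing, cancellation, sorting
-/

namespace Pool.Agent.Helper41.NC

open Matrix Module

section
variable {ι κ : Type*} [Fintype ι] [Fintype κ] [DecidableEq ι] [DecidableEq κ]

theorem form_id (T : Matrix ι κ ℂ) (G : κ → ℂ) (H : ι → ℂ)
    (h : T * diagonal G * Tᴴ = diagonal H) (v : ι → ℂ) :
    ∑ j, G j * ((v ᵥ* T) j * star ((v ᵥ* T) j)) = ∑ i, H i * (v i * star (v i)) := by
  have h1 : ((v ᵥ* T) ᵥ* diagonal G) ⬝ᵥ star (v ᵥ* T) = (v ᵥ* diagonal H) ⬝ᵥ star v := by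
    rw [star_vecMul, ← h, dotProduct_mulVec, vecMul_vecMul, vecMul_vecMul, Matrix.mul_assoc]
  have h2 : ((v ᵥ* T) ᵥ* diagonal G) ⬝ᵥ star (v ᵥ* T)
      = ∑ j, G j * ((v ᵥ* T) j * star ((v ᵥ* T) j)) := by
    refine Finset.sum_congr rfl fun j _ => ?_
    rw [vecMul_diagonal]
    simp only [Pi.star_apply]
    ring
  have h3 : (v ᵥ* diagonal H) ⬝ᵥ star v = ∑ i, H i * (v i * star (v i)) := by
    refine Finset.sum_congr rfl fun j _ => ?_
    rw [vecMul_diagonal]
    simp only [Pi.star_apply]
    ring
  rw [← h2, h1, h3]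

theorem kernel_vec (T : Matrix ι κ ℂ) (I : Finset ι) (J : Finset κ) (h : J.card < I.card) :
    ∃ v : ι → ℂ, v ≠ 0 ∧ (∀ i, i ∉ I → v i = 0) ∧ ∀ j ∈ J, (v ᵥ* T) j = 0 := by
  classical
  let N : Matrix I J ℂ := T.submatrix Subtype.val Subtype.val
  have h1 : LinearMap.ker (Matrix.vecMulLinear N) ≠ ⊥ := by
    apply LinearMap.ker_ne_bot_of_finrank_lt
    rw [finrank_fintype_fun_eq_card, finrank_fintype_fun_eq_card, Fintype.card_coe,
      Fintype.card_coe]
    exact h
  obtain ⟨w, hw, hw0⟩ := (Submodule.ne_bot_iff _).mp h1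
  rw [LinearMap.mem_ker] at hw
  refine ⟨fun i => if h : i ∈ I then w ⟨i, h⟩ else 0, ?_, ?_, ?_⟩
  · intro h0
    apply hw0
    funext i
    have := congrFun h0 i.1
    simpa [i.2] using this
  · intro i hi
    simp [hi]
  · intro j hj
    have h2 := congrFun hw ⟨j, hj⟩
    simp only [vecMulLinear_apply, Pi.zero_apply] at h2
    rw [vecMul, dotProduct] at h2 ⊢
    rw [← Finset.sum_subset (Finset.subset_univ I)]
    · refine Eq.trans ?_ h2
      rw [← Finset.sum_coe_sort I]
      refine Finset.sum_congr rfl fun i _ => ?_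
      simp [N]
    · intro i _ hi
      simp [hi]

theorem cauchy_count (T : Matrix ι κ ℂ) (hT : T * Tᴴ = 1) (ξ : κ → ℝ) (x : ι → ℝ)
    (h : T * diagonal (fun j => (ξ j : ℂ)) * Tᴴ = diagonal (fun i => (x i : ℂ))) (t : ℝ) :
    (Finset.univ.filter (fun i => t ≤ x i)).card ≤ (Finset.univ.filter (fun j => t ≤ ξ j)).card ∧
    (Finset.univ.filter (fun i => x i < t)).card ≤ (Finset.univ.filter (fun j => ξ j < t)).card := by
  have key : ∀ v : ι → ℂ, v ≠ 0 → (v ᵥ* T) ≠ 0 ∧
      ∑ j, (ξ j - t) * Complex.normSq ((v ᵥ* T) j) = ∑ i, (x i - t) * Complex.normSq (v i) := by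
    intro v hv
    have h1 := form_id T _ _ h v
    have h2 := form_id T (fun _ => 1) (fun _ => 1) (by
      rw [diagonal_one, Matrix.mul_one, hT, diagonal_one]) v
    have e : ∀ z : ℂ, z * star z = (Complex.normSq z : ℂ) := fun z => Complex.mul_conj z
    simp only [e, one_mul] at h1 h2
    have h1' : ∑ j, ξ j * Complex.normSq ((v ᵥ* T) j) = ∑ i, x i * Complex.normSq (v i) := by
      exact_mod_cast h1
    have h2' : ∑ j, Complex.normSq ((v ᵥ* T) j) = ∑ i, Complex.normSq (v i) := by
      exact_mod_cast h2
    constructor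
    · intro h0
      rw [h0] at h2'
      simp only [Pi.zero_apply, map_zero, Finset.sum_const_zero] at h2'
      apply hv
      funext i
      have h3 := (Finset.sum_eq_zero_iff_of_nonneg (fun i _ => Complex.normSq_nonneg (v i))).mp
        h2'.symm i (Finset.mem_univ i)
      exact Complex.normSq_eq_zero.mp h3
    · simp only [sub_mul, Finset.sum_sub_distrib, ← Finset.mul_sum]
      rw [h1', h2']
  constructor
  · by_contra hcon
    push Not at hcon
    obtain ⟨v, hv0, hvI, hvJ⟩ := kernel_vec T _ _ hcon
    obtain ⟨hu0, hsum⟩ := key v hv0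
    obtain ⟨j0, hj0⟩ := Function.ne_iff.mp hu0
    have hneg : ∑ j, (ξ j - t) * Complex.normSq ((v ᵥ* T) j) < 0 := by
      apply Finset.sum_neg'
      · intro j _
        by_cases hj : t ≤ ξ j
        · rw [hvJ j (by simp [hj])]
          simp
        · push Not at hj
          exact mul_nonpos_of_nonpos_of_nonneg (by linarith) (Complex.normSq_nonneg _)
      · refine ⟨j0, Finset.mem_univ _, ?_⟩
        have hj : ξ j0 < t := by
          by_contra hc
          push Not at hc
          exact hj0 (hvJ j0 (by simp [hc]))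
        exact mul_neg_of_neg_of_pos (by linarith) (Complex.normSq_pos.mpr hj0)
    have hpos : 0 ≤ ∑ i, (x i - t) * Complex.normSq (v i) := by
      refine Finset.sum_nonneg fun i _ => ?_
      by_cases hi : t ≤ x i
      · exact mul_nonneg (by linarith) (Complex.normSq_nonneg _)
      · rw [hvI i (by simpa using hi)]
        simp
    linarith
  · by_contra hcon
    push Not at hcon
    obtain ⟨v, hv0, hvI, hvJ⟩ := kernel_vec T _ _ hcon
    obtain ⟨hu0, hsum⟩ := key v hv0
    obtain ⟨i0, hi0⟩ := Function.ne_iff.mp hv0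
    have hpos : 0 ≤ ∑ j, (ξ j - t) * Complex.normSq ((v ᵥ* T) j) := by
      refine Finset.sum_nonneg fun j _ => ?_
      by_cases hj : ξ j < t
      · rw [hvJ j (by simp [hj])]
        simp
      · push Not at hj
        exact mul_nonneg (by linarith) (Complex.normSq_nonneg _)
    have hneg : ∑ i, (x i - t) * Complex.normSq (v i) < 0 := by
      apply Finset.sum_neg'
      · intro i _
        by_cases hi : x i < t
        · exact mul_nonpos_of_nonpos_of_nonneg (by linarith) (Complex.normSq_nonneg _)
        · rw [hvI i (by simpa using hi)]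
          simp
      · refine ⟨i0, Finset.mem_univ _, ?_⟩
        have hi : x i0 < t := by
          by_contra hc
          exact hi0 (hvI i0 (by simpa using hc))
        exact mul_neg_of_neg_of_pos (by linarith) (Complex.normSq_pos.mpr hi0)
    linarith

end

/-- Interlacing of multisets in counting form. -/
def CInt (R S : Multiset ℝ) : Prop :=
  ∀ t : ℝ, (S.filter (t ≤ ·)).card ≤ (R.filter (t ≤ ·)).card ∧
    (R.filter (t ≤ ·)).card ≤ (S.filter (t ≤ ·)).card + 1

theorem filter_map_card {ι : Type*} [Fintype ι] (x : ι → ℝ) (t : ℝ) :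
    ((Finset.univ.val.map x).filter (t ≤ ·)).card
      = (Finset.univ.filter (fun i => t ≤ x i)).card := by
  rw [Multiset.filter_map, Multiset.card_map, Finset.card_def, Finset.filter_val]
  rfl

theorem cint_of_matrix {ι κ : Type*} [Fintype ι] [Fintype κ] [DecidableEq ι] [DecidableEq κ]
    (hcard : Fintype.card κ = Fintype.card ι + 1)
    (T : Matrix ι κ ℂ) (hT : T * Tᴴ = 1) (ξ : κ → ℝ) (x : ι → ℝ)
    (h : T * diagonal (fun j => (ξ j : ℂ)) * Tᴴ = diagonal (fun i => (x i : ℂ))) :
    CInt (Finset.univ.val.map ξ) (Finset.univ.val.map x) := by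
  intro t
  obtain ⟨h1, h2⟩ := cauchy_count T hT ξ x h t
  rw [filter_map_card, filter_map_card]
  have h3 : (Finset.univ.filter (fun i => t ≤ x i)).card
      + (Finset.univ.filter (fun i => x i < t)).card = Fintype.card ι := by
    have := Finset.card_filter_add_card_filter_not (s := (Finset.univ : Finset ι))
      (fun i => t ≤ x i)
    simp only [not_le] at this
    rw [this, Finset.card_univ]
  have h4 : (Finset.univ.filter (fun i => t ≤ ξ i)).card
      + (Finset.univ.filter (fun i => ξ i < t)).card = Fintype.card κ := by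
    have := Finset.card_filter_add_card_filter_not (s := (Finset.univ : Finset κ))
      (fun i => t ≤ ξ i)
    simp only [not_le] at this
    rw [this, Finset.card_univ]
  omega

theorem CInt.cancel {e R S : Multiset ℝ} (h : CInt (e + R) (e + S)) : CInt R S := by
  intro t
  have := h t
  simp only [Multiset.filter_add, Multiset.card_add] at this
  omega

theorem exists_enum {X : Type*} (e : Multiset X) :
    ∃ d : Fin e.card → X, Finset.univ.val.map d = e := by
  have key : ∀ l : List X, ∃ d : Fin (l : Multiset X).card → X,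
      Finset.univ.val.map d = (l : Multiset X) := by
    intro l
    refine ⟨fun i => l.get i, ?_⟩
    rw [Fin.univ_val_map]
    exact congrArg _ (List.ofFn_get l)
  have h := key e.toList
  rw [Multiset.coe_toList] at h
  exact h

theorem exists_enum' {X : Type*} (e : Multiset X) (n : ℕ) (hn : e.card = n) :
    ∃ d : Fin n → X, Finset.univ.val.map d = e := by
  subst hn
  exact exists_enum e

theorem exists_sorted (e : Multiset ℝ) (n : ℕ) (hn : e.card = n) :
    ∃ d : Fin n → ℝ, Monotone d ∧ Finset.univ.val.map d = e := by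
  obtain ⟨f, hf⟩ := exists_enum' e n hn
  refine ⟨f ∘ Tuple.sort f, Tuple.monotone_sort f, ?_⟩
  rw [← hf, ← Multiset.map_map]
  congr 1
  exact Multiset.map_univ_val_equiv _

theorem alternate_of_cint {R S : Multiset ℝ} {m : ℕ} (hS : S.card = m) (hR : R.card = m + 1)
    (h : CInt R S) (hd : ∀ x ∈ R, x ∉ S) :
    ∃ (r : Fin (m + 1) → ℝ) (s : Fin m → ℝ), Alternate r s ∧
      Finset.univ.val.map r = R ∧ Finset.univ.val.map s = S := by
  obtain ⟨r, hr, hrR⟩ := exists_sorted R (m + 1) hR
  obtain ⟨s, hs, hsS⟩ := exists_sorted S m hS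
  have hrs : ∀ i j, r i ≠ s j := by
    intro i j hij
    apply hd (r i)
    · rw [← hrR]; exact Multiset.mem_map_of_mem _ (Finset.mem_univ i)
    · rw [hij, ← hsS]; exact Multiset.mem_map_of_mem _ (Finset.mem_univ j)
  refine ⟨r, s, fun i => ⟨?_, ?_⟩, hrR, hsS⟩
  · by_contra hcon
    have h1 : s i < r i.castSucc := lt_of_le_of_ne (not_lt.mp hcon) (hrs _ _).symm
    have h2 := (h (r i.castSucc)).2
    rw [← hrR, ← hsS, filter_map_card, filter_map_card] at h2
    have h3 : (Finset.Ici i.castSucc).card
        ≤ (Finset.univ.filter (fun j => r i.castSucc ≤ r j)).card := by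
      apply Finset.card_le_card
      intro j hj
      rw [Finset.mem_Ici] at hj
      simp [hr hj]
    have h4 : (Finset.univ.filter (fun l => r i.castSucc ≤ s l)).card
        ≤ (Finset.Ioi i).card := by
      apply Finset.card_le_card
      intro l hl
      rw [Finset.mem_filter] at hl
      rw [Finset.mem_Ioi]
      by_contra hc
      have := hs (not_lt.mp hc)
      linarith [hl.2]
    rw [Fin.card_Ici] at h3
    rw [Fin.card_Ioi] at h4
    simp only [Fin.val_castSucc] at h3
    have := i.2
    omega
  · by_contra hcon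
    have h1 : r i.succ < s i := lt_of_le_of_ne (not_lt.mp hcon) (hrs _ _)
    have h2 := (h (s i)).1
    rw [← hrR, ← hsS, filter_map_card, filter_map_card] at h2
    have h3 : (Finset.Ici i).card
        ≤ (Finset.univ.filter (fun j => s i ≤ s j)).card := by
      apply Finset.card_le_card
      intro j hj
      rw [Finset.mem_Ici] at hj
      simp [hs hj]
    have h4 : (Finset.univ.filter (fun l => s i ≤ r l)).card
        ≤ (Finset.Ioi i.succ).card := by
      apply Finset.card_le_card
      intro l hl
      rw [Finset.mem_filter] at hl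
      rw [Finset.mem_Ioi]
      by_contra hc
      have := hr (not_lt.mp hc)
      linarith [hl.2]
    rw [Fin.card_Ici] at h3
    rw [Fin.card_Ioi] at h4
    simp only [Fin.val_succ] at h4
    have := i.2
    omega

end Pool.Agent.Helper41.NC
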