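import Pool.Agent.Helper41.NC.Red

/-!
# Consequences of an adapted completion
-/

namespace Pool.Agent.Helper41.NC

open Matrix Module

theorem supp_card {α β : Type*} [Fintype α] [Fintype β] [DecidableEq α]
    (N : Matrix α β ℂ) (p : α → Prop) (q : β → Prop) [DecidablePred p] [DecidablePred q]
    (h1 : ∀ i i', p i → p i' → (N * Nᴴ) i i' = (1 : Matrix α α ℂ) i i')
    (h0 : ∀ i j, p i → ¬ q j → N i j = 0) :
    Fintype.card {i // p i} ≤ Fintype.card {j // q j} := by
  apply card_le_of_mul (N.submatrix (Subtype.val : {i // p i} → α) (Subtype.val : {j // q j} → β))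
  ext i i'
  have h2 := h1 i i' i.2 i'.2
  rw [mul_apply] at h2 ⊢
  have h3 : ∑ j : {j // q j}, (N.submatrix (Subtype.val : {i // p i} → α) (Subtype.val : {j // q j} → β)) i j *
      ((N.submatrix (Subtype.val : {i // p i} → α) (Subtype.val : {j // q j} → β))ᴴ) j i'
      = ∑ j ∈ Finset.univ.filter q, N i j * Nᴴ j i' := by
    rw [Finset.sum_subtype (Finset.univ.filter q) (p := q) (by simp)]
    rfl
  rw [h3, Finset.sum_filter_of_ne, h2, one_apply, one_apply]
  · simp only [Subtype.ext_iff]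
  · intro j _ hj
    by_contra hq
    exact hj (by rw [h0 i j i.2 hq, zero_mul])

section
variable {ι κ μ : Type*} [Fintype ι] [Fintype κ] [Fintype μ]
  [DecidableEq ι] [DecidableEq κ] [DecidableEq μ]
  {T : Matrix ι κ ℂ} {a : ι → ℂ} {b : κ → ℂ} {R : Matrix μ κ ℂ} {d : μ → ℂ}

theorem Adapted.expand {α : Type*} [Fintype α] (h : Adapted T a b R d) (M : Matrix α κ ℂ)
    (G : κ → ℂ) :
    M * diagonal G = (M * diagonal G * Tᴴ) * T + (M * diagonal G * Rᴴ) * R := by
  calc M * diagonal G = M * diagonal G * (Tᴴ * T + Rᴴ * R) := by rw [h.hone, Matrix.mul_one]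
    _ = _ := by rw [Matrix.mul_add]; simp only [Matrix.mul_assoc]

theorem Adapted.hD' (h : Adapted T a b R d) :
    T * diagonal (fun j => starRingEnd ℂ (b j)) * Tᴴ = diagonal (fun i => starRingEnd ℂ (a i)) := by
  rw [diag_conj, diag_conj, ← h.hD, conjTranspose_mul, conjTranspose_mul,
    conjTranspose_conjTranspose, Matrix.mul_assoc]

theorem Adapted.comp (h : Adapted T a b R d) (δ : ℂ) :
    T * diagonal (fun j => (lf δ (b j) : ℂ)) * Tᴴ = diagonal (fun i => (lf δ (a i) : ℂ)) := by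
  have h1 := comp_lf T Tᴴ δ b
  have h2 := comp_lf (1 : Matrix ι ι ℂ) (1 : Matrix ι ι ℂ) δ a
  rw [h1, h.hD, h.hD']
  rw [Matrix.one_mul, Matrix.mul_one, Matrix.one_mul, Matrix.mul_one, Matrix.one_mul,
    Matrix.mul_one] at h2
  exact h2.symm

theorem Adapted.ent (h : Adapted T a b R d) (i : ι) (j : κ) :
    T i j * (b j - a i) = ∑ s, (T * diagonal b * Rᴴ) i s * R s j := by
  have h1 := congrFun (congrFun (h.expand T b) i) j
  rw [h.hD, mul_diagonal, Matrix.add_apply, diagonal_mul, mul_apply] at h1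
  rw [mul_sub, h1]
  ring

/-- The off-diagonal part of a real functional. -/
theorem Adapted.off (h : Adapted T a b R d) (δ : ℂ) (i : ι) (s : μ) :
    (T * diagonal (fun j => (lf δ (b j) : ℂ)) * Rᴴ) i s
      = (2 * Complex.I)⁻¹ * (δ - starRingEnd ℂ δ * d s ^ 2) * (T * diagonal b * Rᴴ) i s := by
  rw [comp_lf]
  simp only [Matrix.smul_apply, Matrix.sub_apply, smul_eq_mul]
  rw [h.hY]
  ring

theorem Adapted.off_self (h : Adapted T a b R d) (i : ι) (s : μ) :
    (T * diagonal (fun j => (lf (d s) (b j) : ℂ)) * Rᴴ) i s = 0 := by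
  rw [h.off, show d s - starRingEnd ℂ (d s) * d s ^ 2 = d s * (1 - d s * starRingEnd ℂ (d s)) by
    ring, h.hd s]
  simp

theorem Adapted.supp_a (h : Adapted T a b R d) (l : ℂ)
    (hl : Fintype.card {j // b j = l} < Fintype.card {i // a i = l}) :
    ∃ i, a i = l ∧ ∃ s, (T * diagonal b * Rᴴ) i s ≠ 0 := by
  by_contra hcon
  push Not at hcon
  refine absurd hl (not_lt.mpr ?_)
  apply supp_card T (fun i => a i = l) (fun j => b j = l)
  · intro i i' _ _
    rw [h.hT]
  · intro i j hi hj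
    have h1 := h.ent i j
    rw [Finset.sum_eq_zero (fun s _ => by rw [hcon i hi s, zero_mul])] at h1
    rcases mul_eq_zero.mp h1 with h2 | h2
    · exact h2
    · exact absurd (by rw [sub_eq_zero.mp h2, hi]) hj

theorem Adapted.supp_b (h : Adapted T a b R d) (l : ℂ)
    (hl : Fintype.card {i // a i = l} < Fintype.card {j // b j = l}) :
    ∃ j, b j = l ∧ ∃ s, R s j ≠ 0 := by
  by_contra hcon
  push Not at hcon
  refine absurd hl (not_lt.mpr ?_)
  apply supp_card Tᴴ (fun j => b j = l) (fun i => a i = l)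
  · intro j j' hj hj'
    rw [conjTranspose_conjTranspose, eq_sub_of_add_eq h.hone, Matrix.sub_apply]
    have : (Rᴴ * R) j j' = 0 := by
      rw [mul_apply]
      exact Finset.sum_eq_zero fun s _ => by rw [hcon j' hj' s, mul_zero]
    rw [this, sub_zero]
  · intro j i hj hi
    have h1 := h.ent i j
    rw [Finset.sum_eq_zero (fun s _ => by rw [hcon j hj s, mul_zero])] at h1
    rcases mul_eq_zero.mp h1 with h2 | h2
    · rw [conjTranspose_apply, h2, star_zero]
    · exact absurd (by rw [← sub_eq_zero.mp h2, hj]) hi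

/-- Commutation of two functions of `b`, off-diagonal block. -/
theorem Adapted.commute (h : Adapted T a b R d) (G H : κ → ℂ) (g k : ι → ℂ)
    (hG : T * diagonal G * Tᴴ = diagonal g) (hH : T * diagonal H * Tᴴ = diagonal k) (i : ι) (s : μ) :
    g i * (T * diagonal H * Rᴴ) i s + ∑ t, (T * diagonal G * Rᴴ) i t * (R * diagonal H * Rᴴ) t s
      = k i * (T * diagonal G * Rᴴ) i s
        + ∑ t, (T * diagonal H * Rᴴ) i t * (R * diagonal G * Rᴴ) t s := by
  have h1 : ∀ G H : κ → ℂ, ∀ g : ι → ℂ, T * diagonal G * Tᴴ = diagonal g →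
      T * (diagonal G * diagonal H) * Rᴴ = diagonal g * (T * diagonal H * Rᴴ)
        + (T * diagonal G * Rᴴ) * (R * diagonal H * Rᴴ) := by
    intro G H g hG
    calc T * (diagonal G * diagonal H) * Rᴴ = (T * diagonal G) * (diagonal H * Rᴴ) := by
          simp only [Matrix.mul_assoc]
      _ = ((T * diagonal G * Tᴴ) * T + (T * diagonal G * Rᴴ) * R) * (diagonal H * Rᴴ) := by
          rw [← h.expand T G]
      _ = _ := by rw [hG, Matrix.add_mul]; simp only [Matrix.mul_assoc]
  have h2 := h1 G H g hG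
  have h3 := h1 H G k hH
  have h4 : diagonal G * diagonal H = diagonal H * diagonal G := by
    rw [diagonal_mul_diagonal, diagonal_mul_diagonal]
    congr 1; funext j; exact mul_comm _ _
  rw [h4, h3] at h2
  have h5 := congrFun (congrFun h2 i) s
  rw [Matrix.add_apply, Matrix.add_apply, diagonal_mul, diagonal_mul, mul_apply, mul_apply] at h5
  exact h5.symm

/-- An intermediate normal compression. -/
theorem intermediate (hT : T * Tᴴ = 1) (hD : T * diagonal b * Tᴴ = diagonal a)
    (ρ : Matrix Unit κ ℂ) (hρ : ρ * ρᴴ = 1) (hρT : ρ * Tᴴ = 0) (hTρ : T * ρᴴ = 0) (δ : ℂ)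
    (hδ : δ ≠ 0) (g : ι → ℂ) (p : ℂ)
    (hg : T * diagonal (fun j => (lf δ (b j) : ℂ)) * Tᴴ = diagonal g)
    (hoff : T * diagonal (fun j => (lf δ (b j) : ℂ)) * ρᴴ = 0)
    (hp : (ρ * diagonal (fun j => (lf δ (b j) : ℂ)) * ρᴴ) () () = p)
    (hx : ∀ i, (g i - p) * (T * diagonal b * ρᴴ) i () = 0)
    (hy : ∀ i, (g i - p) * (ρ * diagonal b * Tᴴ) () i = 0) :
    ∃ c : ι ⊕ Unit → ℂ, Core a c ∧ Core c b := by
  have hoff' : ρ * diagonal (fun j => (lf δ (b j) : ℂ)) * Tᴴ = 0 := by
    have h1 := congrArg conjTranspose hoff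
    rw [conjTranspose_mul, conjTranspose_mul, conjTranspose_conjTranspose, conjTranspose_zero,
      diagonal_conjTranspose, ← Matrix.mul_assoc] at h1
    rw [← h1]
    congr 3
    funext j
    simp only [Pi.star_apply, Complex.star_def, Complex.conj_ofReal]
  set S : Matrix (ι ⊕ Unit) κ ℂ := fromRows T ρ with hS
  have hSS : S * Sᴴ = 1 := by
    rw [hS, conjTranspose_fromRows_eq_fromCols_conjTranspose, fromRows_mul_fromCols, hT, hρ, hρT,
      hTρ, fromBlocks_one]
  set M : Matrix (ι ⊕ Unit) (ι ⊕ Unit) ℂ := S * diagonal b * Sᴴ with hM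
  have hMb : M = fromBlocks (diagonal a) (T * diagonal b * ρᴴ) (ρ * diagonal b * Tᴴ)
      (ρ * diagonal b * ρᴴ) := by
    rw [hM, hS, conjTranspose_fromRows_eq_fromCols_conjTranspose, fromRows_mul,
      fromRows_mul_fromCols, hD]
  have hL : S * diagonal (fun j => (lf δ (b j) : ℂ)) * Sᴴ
      = diagonal (Sum.elim g (fun _ => p)) := by
    rw [hS, conjTranspose_fromRows_eq_fromCols_conjTranspose, fromRows_mul,
      fromRows_mul_fromCols, hg, hoff, hoff', ← fromBlocks_diagonal]
    congr 1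
    ext i j
    cases i; cases j
    rw [hp, diagonal_apply_eq]
  have hcomm : diagonal (Sum.elim g (fun _ => p)) * M = M * diagonal (Sum.elim g (fun _ => p)) := by
    ext q q'
    rw [diagonal_mul, mul_diagonal, hMb]
    rcases q with i | u <;> rcases q' with i' | u'
    · rw [fromBlocks_apply₁₁]
      by_cases h : i = i'
      · subst h; simp [mul_comm]
      · rw [diagonal_apply_ne _ h]; simp
    · rw [fromBlocks_apply₁₂]
      simp only [Sum.elim_inl, Sum.elim_inr]
      have := hx i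
      cases u'
      linear_combination this
    · rw [fromBlocks_apply₂₁]
      simp only [Sum.elim_inl, Sum.elim_inr]
      have := hy i'
      cases u
      linear_combination -this
    · cases u; cases u'
      simp [mul_comm]
  have hMM : S * diagonal (fun j => starRingEnd ℂ (b j)) * Sᴴ = Mᴴ := by
    rw [hM, diag_conj, conjTranspose_mul, conjTranspose_mul, conjTranspose_conjTranspose,
      Matrix.mul_assoc]
  rw [← hL, comp_lf, hMM, ← hM] at hcomm
  have hnorm : M * Mᴴ = Mᴴ * M := by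
    have h2 : (2 * Complex.I)⁻¹ ≠ 0 := inv_ne_zero (by simp)
    rw [Matrix.smul_mul, Matrix.mul_smul] at hcomm
    have h3 := smul_right_injective _ h2 hcomm
    rw [Matrix.sub_mul, Matrix.mul_sub, Matrix.smul_mul, Matrix.mul_smul, Matrix.smul_mul,
      Matrix.mul_smul] at h3
    have h4 := sub_right_injective h3
    have h5 : starRingEnd ℂ δ ≠ 0 := by simpa using hδ
    exact (smul_right_injective _ h5 h4).symm
  obtain ⟨U, c, hU1, hU2, hU3⟩ := normal_diag M hnorm
  obtain ⟨F, hF⟩ : ∃ F : Matrix ι (ι ⊕ Unit) ℂ, F = fromCols 1 0 := ⟨_, rfl⟩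
  have hF1 : F * Fᴴ = 1 := by
    rw [hF, conjTranspose_fromCols_eq_fromRows_conjTranspose, fromCols_mul_fromRows]
    simp
  have hF2 : F * M * Fᴴ = diagonal a := by
    rw [hF, hMb, conjTranspose_fromCols_eq_fromRows_conjTranspose, fromCols_mul_fromBlocks,
      fromCols_mul_fromRows]
    simp
  refine ⟨c, ⟨F * Uᴴ, ?_, ?_⟩, ⟨U * S, ?_, ?_⟩⟩
  · rw [conjTranspose_mul, conjTranspose_conjTranspose]
    calc F * Uᴴ * (U * Fᴴ) = F * (Uᴴ * U) * Fᴴ := by simp only [Matrix.mul_assoc]
      _ = 1 := by rw [hU2, Matrix.mul_one, hF1]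
  · rw [conjTranspose_mul, conjTranspose_conjTranspose, ← hU3]
    calc F * Uᴴ * (U * M * Uᴴ) * (U * Fᴴ) = F * ((Uᴴ * U) * M * (Uᴴ * U)) * Fᴴ := by
          simp only [Matrix.mul_assoc]
      _ = diagonal a := by rw [hU2, Matrix.mul_one, Matrix.one_mul, hF2]
  · rw [conjTranspose_mul]
    calc U * S * (Sᴴ * Uᴴ) = U * (S * Sᴴ) * Uᴴ := by simp only [Matrix.mul_assoc]
      _ = 1 := by rw [hSS, Matrix.mul_one, hU1]
  · rw [conjTranspose_mul, ← hU3, hM]
    simp only [Matrix.mul_assoc]

end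

end Pool.Agent.Helper41.NC
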