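import Mathlib

/-!
# Normal compressions of codimension two: definitions
-/

namespace Pool.Agent.Helper41.NC

open Matrix

/-- The pair `(a, b)` of tuples is realizable: some normal matrix `A` with eigenvalues `a`
(with multiplicity) is a compression `Vᴴ B V`, `Vᴴ V = 1`, of a normal matrix `B` with
eigenvalues `b`. -/
def Realizable {k n : ℕ} (a : Fin k → ℂ) (b : Fin n → ℂ) : Prop :=
  ∃ (A : Matrix (Fin k) (Fin k) ℂ) (B : Matrix (Fin n) (Fin n) ℂ) (V : Matrix (Fin n) (Fin k) ℂ),
    A * Aᴴ = Aᴴ * A ∧ B * Bᴴ = Bᴴ * B ∧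
    A.charpoly = ∏ i, (Polynomial.X - Polynomial.C (a i)) ∧
    B.charpoly = ∏ j, (Polynomial.X - Polynomial.C (b j)) ∧
    Vᴴ * V = 1 ∧ A = Vᴴ * B * V

/-- Strict interlacing of real tuples: `r₀ < s₀ < r₁ < s₁ < ⋯ < s_{m-1} < r_m`. -/
def Alternate {m : ℕ} (r : Fin (m + 1) → ℝ) (s : Fin m → ℝ) : Prop :=
  ∀ i : Fin m, r i.castSucc < s i ∧ s i < r i.succ

/-- The multiset of entries of a tuple. -/
def entries {k : ℕ} (a : Fin k → ℂ) : Multiset ℂ := Finset.univ.val.map a

/-- Codimension one: apart from a common part `e`, both multisets lie on the line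
`x ↦ γ + αx`, and there the parameters strictly interlace. -/
def LineStep (a b : Multiset ℂ) : Prop :=
  ∃ (m : ℕ) (r : Fin (m + 1) → ℝ) (s : Fin m → ℝ) (e : Multiset ℂ) (γ α : ℂ),
    Alternate r s ∧
    a = e + Finset.univ.val.map (fun i => γ + α * s i) ∧
    b = e + Finset.univ.val.map (fun j => γ + α * r j)

/-- Hyperbolic step: apart from a common part `e`, both multisets lie on the curve
`x ↦ γ + αx + β/x` (a hyperbola when `α, β` are real independent), the pole `x = 0` together with
the parameters of `a` strictly interlaces the parameters of `b`. -/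
def HypStep (a b : Multiset ℂ) : Prop :=
  ∃ (m : ℕ) (r : Fin (m + 2) → ℝ) (s : Fin (m + 1) → ℝ) (p : Fin (m + 1)) (e : Multiset ℂ)
    (γ α β : ℂ), Alternate r s ∧ s p = 0 ∧
    a = e + (Finset.univ.erase p).val.map (fun i => γ + α * s i + β / s i) ∧
    b = e + Finset.univ.val.map (fun j => γ + α * r j + β / r j)

end Pool.Agent.Helper41.NC
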