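import Pool.Agent.Helper41.NC.LA
import Pool.Agent.Helper41.NC.Defs

/-!
# Realizable pairs in coordinates
-/

namespace Pool.Agent.Helper41.NC

open Matrix Module

section
variable {ι κ μ δ ι' κ' : Type*} [Fintype ι] [Fintype κ] [Fintype μ] [Fintype δ] [Fintype ι']
  [Fintype κ'] [DecidableEq ι] [DecidableEq κ] [DecidableEq μ] [DecidableEq δ] [DecidableEq ι']
  [DecidableEq κ']

/-- Realizability in coordinates. -/
def Core (a : ι → ℂ) (b : κ → ℂ) : Prop :=
  ∃ T : Matrix ι κ ℂ, T * Tᴴ = 1 ∧ T * diagonal b * Tᴴ = diagonal a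

omit [DecidableEq ι] [DecidableEq κ] in
theorem exists_equiv_of_map_eq {X : Type*} (f : ι → X) (g : κ → X)
    (h : Finset.univ.val.map f = Finset.univ.val.map g) : ∃ e : ι ≃ κ, ∀ x, g (e x) = f x := by
  classical
  have hc : ∀ x : X, Fintype.card {i // f i = x} = Fintype.card {j // g j = x} := by
    intro x
    have := congrArg (Multiset.count x) h
    rw [Multiset.count_map, Multiset.count_map] at this
    rw [Fintype.card_subtype, Fintype.card_subtype]
    have h1 : ∀ {α : Type _} [Fintype α] (f : α → X),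
        (Finset.univ.filter (fun i => f i = x)).card
          = (Multiset.filter (fun i => x = f i) (Finset.univ : Finset α).val).card := by
      intro α _ f
      rw [Finset.card_def, Finset.filter_val]
      congr 1
      apply Multiset.filter_congr
      intro i _
      exact eq_comm
    have h2 : ∀ {α : Type _} [Fintype α] (f : α → X),
        (Finset.univ.filter (fun i => f i = x)).card
          = (Multiset.filter (fun i => x = f i) (Finset.univ : Finset α).val).card := by
      intro α _ f
      rw [Finset.card_def, Finset.filter_val]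
      congr 1
      apply Multiset.filter_congr
      intro i _
      exact eq_comm
    rw [h1 f, h2 g]
    exact this
  let e : ι ≃ κ := (Equiv.sigmaFiberEquiv f).symm.trans
    ((Equiv.sigmaCongrRight fun x => Fintype.equivOfCardEq (hc x)).trans (Equiv.sigmaFiberEquiv g))
  refine ⟨e, fun x => ?_⟩
  exact (Fintype.equivOfCardEq (hc (f x)) ⟨x, rfl⟩).2

theorem Core.submatrix {a : ι → ℂ} {b : κ → ℂ} (h : Core a b) (e : ι' ≃ ι) (f : κ' ≃ κ) :
    Core (fun i => a (e i)) (fun j => b (f j)) := by
  obtain ⟨T, h1, h2⟩ := h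
  refine ⟨T.submatrix e f, ?_, ?_⟩
  · rw [conjTranspose_submatrix, submatrix_mul_equiv, h1, submatrix_one_equiv]
  · have hb : diagonal (fun j => b (f j)) = (diagonal b).submatrix f f := by
      rw [submatrix_diagonal_equiv]; rfl
    have ha : diagonal (fun i => a (e i)) = (diagonal a).submatrix e e := by
      rw [submatrix_diagonal_equiv]; rfl
    rw [hb, ha, conjTranspose_submatrix, submatrix_mul_equiv, submatrix_mul_equiv, h2]

theorem Core.of_map_eq {a : ι → ℂ} {b : κ → ℂ} (h : Core a b) {a' : ι' → ℂ} {b' : κ' → ℂ}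
    (ha : Finset.univ.val.map a' = Finset.univ.val.map a)
    (hb : Finset.univ.val.map b' = Finset.univ.val.map b) : Core a' b' := by
  obtain ⟨e, he⟩ := exists_equiv_of_map_eq a' a ha
  obtain ⟨f, hf⟩ := exists_equiv_of_map_eq b' b hb
  have := h.submatrix e f
  simpa only [he, hf] using this

theorem Core.trans {a : ι → ℂ} {c : μ → ℂ} {b : κ → ℂ} (h1 : Core a c) (h2 : Core c b) :
    Core a b := by
  obtain ⟨T, hT, hT'⟩ := h1
  obtain ⟨S, hS, hS'⟩ := h2
  refine ⟨T * S, ?_, ?_⟩
  · rw [conjTranspose_mul, Matrix.mul_assoc, ← Matrix.mul_assoc S, hS, Matrix.one_mul, hT]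
  · rw [conjTranspose_mul]
    calc T * S * diagonal b * (Sᴴ * Tᴴ) = T * (S * diagonal b * Sᴴ) * Tᴴ := by
          simp only [Matrix.mul_assoc]
      _ = _ := by rw [hS', hT']

theorem Core.sum {a : ι → ℂ} {b : κ → ℂ} (h : Core a b) (d : δ → ℂ) :
    Core (Sum.elim d a) (Sum.elim d b) := by
  obtain ⟨T, h1, h2⟩ := h
  refine ⟨fromBlocks 1 0 0 T, ?_, ?_⟩
  · rw [fromBlocks_conjTranspose, fromBlocks_multiply]
    simp [h1, fromBlocks_one]
  · rw [fromBlocks_conjTranspose, ← fromBlocks_diagonal, fromBlocks_multiply, fromBlocks_multiply]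
    simp [h2]

/-- A normal matrix with given characteristic polynomial is unitarily diagonalised in the given
order. -/
theorem diag_of_charpoly {k : ℕ} (A : Matrix (Fin k) (Fin k) ℂ) (hA : A * Aᴴ = Aᴴ * A)
    (a : Fin k → ℂ) (hc : A.charpoly = ∏ i, (Polynomial.X - Polynomial.C (a i))) :
    ∃ U : Matrix (Fin k) (Fin k) ℂ, U * Uᴴ = 1 ∧ Uᴴ * U = 1 ∧ U * A * Uᴴ = diagonal a := by
  obtain ⟨U, c, h1, h2, h3⟩ := normal_diag A hA
  have h4 : A.charpoly = ∏ i, (Polynomial.X - Polynomial.C (c i)) := by
    have : (diagonal c).charpoly = A.charpoly := by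
      rw [← h3, Matrix.charpoly_mul_comm, ← Matrix.mul_assoc, h2, Matrix.one_mul]
    rw [← this, Matrix.charpoly_diagonal]
  have h5 : Finset.univ.val.map a = Finset.univ.val.map c := by
    have h6 : ∀ f : Fin k → ℂ, (∏ i, (Polynomial.X - Polynomial.C (f i))).roots
        = Finset.univ.val.map f := by
      intro f
      have := Polynomial.roots_multiset_prod_X_sub_C (Finset.univ.val.map f)
      rw [Multiset.map_map] at this
      exact this
    rw [← h6 a, ← h6 c, ← hc, h4]
  obtain ⟨e, he⟩ := exists_equiv_of_map_eq a c h5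
  refine ⟨U.submatrix e id, ?_, ?_, ?_⟩
  · rw [conjTranspose_submatrix]
    have : (U.submatrix e id) * (Uᴴ.submatrix id e) = (U * Uᴴ).submatrix e e := by
      rw [Matrix.submatrix_mul U Uᴴ e id e Function.bijective_id]
    rw [this, h1, submatrix_one_equiv]
  · rw [conjTranspose_submatrix]
    have : (Uᴴ.submatrix id e) * (U.submatrix e id) = (Uᴴ * U).submatrix id id := by
      rw [Matrix.submatrix_mul_equiv]
    rw [this, h2]
    rfl
  · rw [conjTranspose_submatrix]
    have h7 : (U.submatrix e id) * A = (U * A).submatrix e id := by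
      conv_lhs => rw [show A = A.submatrix id id from rfl]
      rw [Matrix.submatrix_mul U A e id id Function.bijective_id]
    rw [h7]
    have h8 : ((U * A).submatrix e id) * (Uᴴ.submatrix id e) = (U * A * Uᴴ).submatrix e e := by
      rw [Matrix.submatrix_mul (U * A) Uᴴ e id e Function.bijective_id]
    rw [h8, h3, submatrix_diagonal_equiv]
    congr 1
    funext i
    exact he i

theorem realizable_iff_core {k n : ℕ} (a : Fin k → ℂ) (b : Fin n → ℂ) :
    Realizable a b ↔ Core a b := by
  constructor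
  · rintro ⟨A, B, V, hA, hB, hcA, hcB, hV, hAB⟩
    obtain ⟨U, hU1, hU2, hU3⟩ := diag_of_charpoly A hA a hcA
    obtain ⟨W, hW1, hW2, hW3⟩ := diag_of_charpoly B hB b hcB
    refine ⟨U * Vᴴ * Wᴴ, ?_, ?_⟩
    · rw [conjTranspose_mul, conjTranspose_mul, conjTranspose_conjTranspose,
        conjTranspose_conjTranspose]
      calc U * Vᴴ * Wᴴ * (W * (V * Uᴴ)) = U * (Vᴴ * (Wᴴ * W) * V) * Uᴴ := by
            simp only [Matrix.mul_assoc]
        _ = 1 := by rw [hW2, Matrix.mul_one, hV, Matrix.mul_one, hU1]
    · rw [conjTranspose_mul, conjTranspose_mul, conjTranspose_conjTranspose,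
        conjTranspose_conjTranspose, ← hW3]
      calc U * Vᴴ * Wᴴ * (W * B * Wᴴ) * (W * (V * Uᴴ))
          = U * (Vᴴ * ((Wᴴ * W) * B * (Wᴴ * W)) * V) * Uᴴ := by
            simp only [Matrix.mul_assoc]
        _ = diagonal a := by rw [hW2, Matrix.mul_one, Matrix.one_mul, ← hAB, hU3]
  · rintro ⟨T, h1, h2⟩
    refine ⟨diagonal a, diagonal b, Tᴴ, ?_, ?_, charpoly_diagonal a, charpoly_diagonal b, ?_, ?_⟩
    · rw [diagonal_conjTranspose, diagonal_mul_diagonal, diagonal_mul_diagonal]
      congr 1; funext i; exact mul_comm _ _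
    · rw [diagonal_conjTranspose, diagonal_mul_diagonal, diagonal_mul_diagonal]
      congr 1; funext i; exact mul_comm _ _
    · rw [conjTranspose_conjTranspose, h1]
    · rw [conjTranspose_conjTranspose, h2]

end

end Pool.Agent.Helper41.NC
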