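import Pool.Agent.Helper41.NC.Main

/-!
# All codimensions: the common curve
-/

namespace Pool.Agent.Helper41.NC

open Matrix Module

section poly

/-- Real part of a complex polynomial (coefficientwise). -/
noncomputable def rePoly (P : MvPolynomial (Fin 2) ℂ) : MvPolynomial (Fin 2) ℝ :=
  ∑ e ∈ P.support, MvPolynomial.monomial e (P.coeff e).re

theorem rePoly_totalDegree (P : MvPolynomial (Fin 2) ℂ) :
    (rePoly P).totalDegree ≤ P.totalDegree := by
  unfold rePoly
  apply MvPolynomial.totalDegree_finsetSum_le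
  intro e he
  refine (MvPolynomial.totalDegree_monomial_le _ _).trans ?_
  exact MvPolynomial.le_totalDegree he

theorem rePoly_eval (P : MvPolynomial (Fin 2) ℂ) (v : Fin 2 → ℝ) :
    MvPolynomial.eval v (rePoly P) = (MvPolynomial.eval (fun i => (v i : ℂ)) P).re := by
  rw [rePoly, map_sum, MvPolynomial.eval_eq (fun i => (v i : ℂ)) P, Complex.re_sum]
  refine Finset.sum_congr rfl fun e _ => ?_
  rw [MvPolynomial.eval_monomial, Finsupp.prod]
  have h1 : (∏ i ∈ e.support, ((v i : ℂ)) ^ e i) = ((∏ i ∈ e.support, (v i) ^ e i : ℝ) : ℂ) := by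
    push_cast
    rfl
  rw [h1, Complex.re_mul_ofReal]

theorem rePoly_zero : rePoly 0 = 0 := by
  simp [rePoly]

/-- Expansion of the determinant of a diagonal matrix minus a constant matrix. -/
theorem det_expand {m : ℕ} (ℓ : Fin m → MvPolynomial (Fin 2) ℂ)
    (hℓ : ∀ s, (ℓ s).totalDegree ≤ 1) (K : Matrix (Fin m) (Fin m) ℂ) :
    ∃ G : MvPolynomial (Fin 2) ℂ, (G = 0 ∨ G.totalDegree + 2 ≤ m) ∧
      (diagonal ℓ - K.map MvPolynomial.C).det = ∏ s, (ℓ s - MvPolynomial.C (K s s)) + G := by
  classical
  set M : Matrix (Fin m) (Fin m) (MvPolynomial (Fin 2) ℂ) := diagonal ℓ - K.map MvPolynomial.C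
    with hM
  have hdiag : ∀ s, M s s = ℓ s - MvPolynomial.C (K s s) := by
    intro s
    rw [hM, Matrix.sub_apply, diagonal_apply_eq, map_apply]
  have hoff : ∀ s t, s ≠ t → M s t = - MvPolynomial.C (K s t) := by
    intro s t hst
    rw [hM, Matrix.sub_apply, diagonal_apply_ne _ hst, map_apply, zero_sub]
  refine ⟨∑ σ ∈ Finset.univ.erase (1 : Equiv.Perm (Fin m)),
    (((Equiv.Perm.sign σ : ℤˣ) : ℤ) : MvPolynomial (Fin 2) ℂ) * ∏ i, M (σ i) i, ?_, ?_⟩
  · by_cases hm : m < 2
    · left
      apply Finset.sum_eq_zero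
      intro σ hσ
      exfalso
      have h1 := Equiv.Perm.two_le_card_support_of_ne_one (Finset.ne_of_mem_erase hσ)
      have h2 := Finset.card_le_univ σ.support
      rw [Fintype.card_fin] at h2
      omega
    · right
      have hb : (∑ σ ∈ Finset.univ.erase (1 : Equiv.Perm (Fin m)),
          (((Equiv.Perm.sign σ : ℤˣ) : ℤ) : MvPolynomial (Fin 2) ℂ)
            * ∏ i, M (σ i) i).totalDegree ≤ m - 2 := by
        apply MvPolynomial.totalDegree_finsetSum_le
        intro σ hσ
        have h1 := Equiv.Perm.two_le_card_support_of_ne_one (Finset.ne_of_mem_erase hσ)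
        refine (MvPolynomial.totalDegree_mul _ _).trans ?_
        have h3 : ((((Equiv.Perm.sign σ : ℤˣ) : ℤ) : MvPolynomial (Fin 2) ℂ)).totalDegree = 0 := by
          have : ((((Equiv.Perm.sign σ : ℤˣ) : ℤ) : MvPolynomial (Fin 2) ℂ))
              = MvPolynomial.C ((((Equiv.Perm.sign σ : ℤˣ) : ℤ) : ℂ)) := by simp
          rw [this, MvPolynomial.totalDegree_C]
        rw [h3, zero_add]
        refine (MvPolynomial.totalDegree_finsetProd _ _).trans ?_
        have h4 : ∀ i, (M (σ i) i).totalDegree ≤ if σ i = i then 1 else 0 := by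
          intro i
          by_cases hi : σ i = i
          · rw [if_pos hi, hi, hdiag]
            refine (MvPolynomial.totalDegree_sub _ _).trans ?_
            rw [MvPolynomial.totalDegree_C]
            exact max_le (hℓ i) (by norm_num)
          · rw [if_neg hi, hoff _ _ hi, MvPolynomial.totalDegree_neg, MvPolynomial.totalDegree_C]
        refine (Finset.sum_le_sum fun i _ => h4 i).trans ?_
        rw [Finset.sum_boole]
        have h5 : (Finset.univ.filter (fun i => σ i = i)).card + σ.support.card = m := by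
          have h6 : σ.support = Finset.univ.filter (fun i => ¬ σ i = i) := by
            ext i; simp
          rw [h6, Finset.card_filter_add_card_filter_not, Finset.card_univ, Fintype.card_fin]
        simp only [Nat.cast_id]
        omega
      omega
  · rw [det_apply', ← Finset.add_sum_erase _ _ (Finset.mem_univ (1 : Equiv.Perm (Fin m)))]
    congr 1
    simp only [Equiv.Perm.sign_one, Units.val_one, Int.cast_one, one_mul, Equiv.Perm.coe_one, id_eq]
    exact Finset.prod_congr rfl fun i _ => hdiag i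

end poly

section
variable {ι κ : Type*} [Fintype ι] [Fintype κ] [DecidableEq ι] [DecidableEq κ]
  {T : Matrix ι κ ℂ} {a : ι → ℂ} {b : κ → ℂ} {m : ℕ} {R : Matrix (Fin m) κ ℂ} {d : Fin m → ℂ}

theorem Adapted.off_self' (H : Adapted T a b R d) (s : Fin m) (i : ι) :
    (R * diagonal (fun j => (lf (d s) (b j) : ℂ)) * Tᴴ) s i = 0 := by
  have h1 := conjT_real T Rᴴ (fun j => lf (d s) (b j))
  rw [conjTranspose_conjTranspose] at h1
  rw [← h1, conjTranspose_apply, H.off_self i s, star_zero]

theorem Adapted.kerB (H : Adapted T a b R d) (j : κ) (t : Fin m) :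
    (lf (d t) (b j) : ℂ) * R t j
      = ∑ s, (R * diagonal (fun j => (lf (d t) (b j) : ℂ)) * Rᴴ) t s * R s j := by
  have h1 := congrFun (congrFun (H.expand R (fun j => (lf (d t) (b j) : ℂ))) t) j
  rw [mul_diagonal, Matrix.add_apply, mul_apply, mul_apply (M := R * diagonal _ * Rᴴ),
    Finset.sum_eq_zero (fun i _ => by rw [H.off_self' t i, zero_mul]), zero_add] at h1
  rw [mul_comm]
  exact h1

theorem Adapted.kerA (H : Adapted T a b R d) (i : ι) (s : Fin m) :
    ((T * diagonal b * Rᴴ) i s * d s) * (lf (d s) (a i) : ℂ)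
      = ∑ t, ((T * diagonal b * Rᴴ) i t * d t) *
        (R * diagonal (fun j => (lf (d t) (b j) : ℂ)) * Rᴴ) t s := by
  have h1 := H.commute b (fun j => starRingEnd ℂ (b j)) a (fun i => starRingEnd ℂ (a i))
    H.hD H.hD' i s
  rw [H.hY] at h1
  simp only [H.hY] at h1
  have h2 : ∀ t, ((T * diagonal b * Rᴴ) i t * d t) *
        (R * diagonal (fun j => (lf (d t) (b j) : ℂ)) * Rᴴ) t s
      = (2 * Complex.I)⁻¹ * (d t ^ 2 * (T * diagonal b * Rᴴ) i t * (R * diagonal b * Rᴴ) t s
        - (T * diagonal b * Rᴴ) i t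
          * (R * diagonal (fun j => starRingEnd ℂ (b j)) * Rᴴ) t s) := by
    intro t
    rw [comp_lf]
    simp only [Matrix.smul_apply, Matrix.sub_apply, smul_eq_mul]
    have h3 := H.hd t
    linear_combination (-(2 * Complex.I)⁻¹ * (T * diagonal b * Rᴴ) i t
      * (R * diagonal (fun j => starRingEnd ℂ (b j)) * Rᴴ) t s) * h3
  rw [Finset.sum_congr rfl fun t _ => h2 t, ← Finset.mul_sum, Finset.sum_sub_distrib, lf_eq]
  have h3 := H.hd s
  linear_combination (2 * Complex.I)⁻¹ * h1
    - ((2 * Complex.I)⁻¹ * (T * diagonal b * Rᴴ) i s * starRingEnd ℂ (a i)) * h3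

theorem curve_core (hcard : Fintype.card κ = Fintype.card ι + m) (h : Core a b) :
    ∃ (d : Fin m → ℂ) (p : Fin m → ℝ) (G : MvPolynomial (Fin 2) ℝ),
      (∀ s, ‖d s‖ = 1) ∧ (G = 0 ∨ G.totalDegree + 2 ≤ m) ∧
      (∀ l : ℂ, (Finset.univ.val.map a).count l ≠ (Finset.univ.val.map b).count l →
        ∏ s, (lf (d s) l - p s) + MvPolynomial.eval ![l.re, l.im] G = 0) ∧
      (∀ (s : Fin m) (t : ℝ),
        (Finset.univ.filter (fun i => t ≤ lf (d s) (a i))).card + (if t ≤ p s then 1 else 0)
          ≤ (Finset.univ.filter (fun j => t ≤ lf (d s) (b j))).card ∧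
        (Finset.univ.filter (fun j => t ≤ lf (d s) (b j))).card + 1
          ≤ (Finset.univ.filter (fun i => t ≤ lf (d s) (a i))).card
            + (if t ≤ p s then 1 else 0) + m) := by
  classical
  obtain ⟨T, hT, hD⟩ := h
  obtain ⟨R, d, H⟩ := exists_adapted (μ := Fin m) T a b hT hD (by rw [hcard]; simp)
  obtain ⟨K, hK⟩ : ∃ K : Matrix (Fin m) (Fin m) ℂ,
      K = of fun t s => (R * diagonal (fun j => (lf (d t) (b j) : ℂ)) * Rᴴ) t s := ⟨_, rfl⟩
  have hKe : ∀ t s, K t s = (R * diagonal (fun j => (lf (d t) (b j) : ℂ)) * Rᴴ) t s := by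
    intro t s; rw [hK]; rfl
  have hreal : ∀ s, ∃ p : ℝ, K s s = (p : ℂ) := by
    intro s
    have h1 := conjT_real R Rᴴ (fun j => lf (d s) (b j))
    rw [conjTranspose_conjTranspose] at h1
    have h2 := congrFun (congrFun h1 s) s
    rw [conjTranspose_apply, ← hKe] at h2
    exact ⟨(K s s).re, (Complex.conj_eq_iff_re.mp h2).symm⟩
  choose p hp using hreal
  obtain ⟨ℓ, hℓ⟩ : ∃ ℓ : Fin m → MvPolynomial (Fin 2) ℂ, ℓ = fun s =>
      MvPolynomial.C (((d s).im : ℝ) : ℂ) * MvPolynomial.X 0
        + MvPolynomial.C (((d s).re : ℝ) : ℂ) * MvPolynomial.X 1 := ⟨_, rfl⟩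
  have hℓd : ∀ s, (ℓ s).totalDegree ≤ 1 := by
    intro s
    rw [hℓ]
    refine (MvPolynomial.totalDegree_add _ _).trans (max_le ?_ ?_)
    · refine (MvPolynomial.totalDegree_mul _ _).trans ?_
      rw [MvPolynomial.totalDegree_C, MvPolynomial.totalDegree_X]
    · refine (MvPolynomial.totalDegree_mul _ _).trans ?_
      rw [MvPolynomial.totalDegree_C, MvPolynomial.totalDegree_X]
  obtain ⟨G, hG, hdet⟩ := det_expand ℓ hℓd K
  have hℓe : ∀ s (l : ℂ), MvPolynomial.eval (fun i => ((![l.re, l.im] i : ℝ) : ℂ)) (ℓ s)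
      = (lf (d s) l : ℂ) := by
    intro s l
    rw [hℓ]
    simp only [map_add, map_mul, MvPolynomial.eval_C, MvPolynomial.eval_X, cons_val_zero,
      cons_val_one, lf]
    rw [Complex.mul_im]
    push_cast
    ring
  have hzero : ∀ l : ℂ, (Finset.univ.val.map a).count l ≠ (Finset.univ.val.map b).count l →
      (diagonal (fun s => (lf (d s) l : ℂ)) - K).det = 0 := by
    intro l hl
    rw [count_entries, count_entries] at hl
    rcases Nat.lt_or_gt_of_ne hl with h1 | h1
    · obtain ⟨j, rfl, s, hs⟩ := H.supp_b l h1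
      rw [← Matrix.exists_mulVec_eq_zero_iff]
      refine ⟨fun s => R s j, fun h0 => hs (congrFun h0 s), ?_⟩
      funext t
      rw [sub_mulVec, Pi.sub_apply, mulVec_diagonal, mulVec, dotProduct, H.kerB j t]
      simp only [hKe, sub_self, Pi.zero_apply]
    · obtain ⟨i, rfl, s, hs⟩ := H.supp_a l h1
      rw [← Matrix.exists_vecMul_eq_zero_iff]
      have hd0 : d s ≠ 0 := by
        intro h0
        have := H.hd s
        rw [h0] at this
        simp at this
      refine ⟨fun t => (T * diagonal b * Rᴴ) i t * d t,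
        fun h0 => (mul_ne_zero hs hd0) (congrFun h0 s), ?_⟩
      funext t
      rw [vecMul_sub, Pi.sub_apply, vecMul_diagonal, vecMul, dotProduct, H.kerA i t]
      simp only [hKe, sub_self, Pi.zero_apply]
  refine ⟨d, p, rePoly G, ?_, ?_, ?_, ?_⟩
  · intro s
    have h1 := H.hd s
    rw [Complex.mul_conj, Complex.normSq_eq_norm_sq] at h1
    have h2 : ‖d s‖ ^ 2 = 1 := by exact_mod_cast h1
    nlinarith [norm_nonneg (d s)]
  · rcases hG with hG | hG
    · left; rw [hG, rePoly_zero]
    · right
      have := rePoly_totalDegree G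
      omega
  · intro l hl
    have h1 := hzero l hl
    have h2 := congrArg (MvPolynomial.eval (fun i => ((![l.re, l.im] i : ℝ) : ℂ))) hdet
    rw [RingHom.map_det, RingHom.mapMatrix_apply] at h2
    have h3 : (diagonal ℓ - K.map MvPolynomial.C).map
        (MvPolynomial.eval (fun i => ((![l.re, l.im] i : ℝ) : ℂ)))
        = diagonal (fun s => (lf (d s) l : ℂ)) - K := by
      ext s t
      rw [map_apply, Matrix.sub_apply, map_apply, Matrix.sub_apply, map_sub,
        MvPolynomial.eval_C]
      congr 1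
      by_cases hst : s = t
      · subst hst
        rw [diagonal_apply_eq, diagonal_apply_eq, hℓe]
      · rw [diagonal_apply_ne _ hst, diagonal_apply_ne _ hst, map_zero]
    rw [h3, h1, map_add, map_prod] at h2
    have h4 : ∏ s, MvPolynomial.eval (fun i => ((![l.re, l.im] i : ℝ) : ℂ))
        (ℓ s - MvPolynomial.C (K s s)) = ((∏ s, (lf (d s) l - p s) : ℝ) : ℂ) := by
      rw [Complex.ofReal_prod]
      refine Finset.prod_congr rfl fun s _ => ?_
      rw [map_sub, hℓe, MvPolynomial.eval_C, hp]
      push_cast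
      rfl
    rw [h4] at h2
    rw [rePoly_eval]
    have h5 := congrArg Complex.re h2
    rw [Complex.add_re, Complex.ofReal_re, Complex.zero_re] at h5
    exact h5.symm
  · intro s t
    obtain ⟨ρ, hρ⟩ : ∃ ρ : Matrix Unit κ ℂ, ρ = R.submatrix (fun _ => s) id := ⟨_, rfl⟩
    have e1 : ∀ G : κ → ℂ, ∀ i, (T * diagonal G * ρᴴ) i () = (T * diagonal G * Rᴴ) i s := by
      intro G i
      rw [mul_apply, mul_apply]
      refine Finset.sum_congr rfl fun j _ => ?_
      rw [hρ]; rfl
    have e2 : ∀ G : κ → ℂ, (ρ * diagonal G * ρᴴ) () () = (R * diagonal G * Rᴴ) s s := by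
      intro G
      rw [mul_apply, mul_apply]
      refine Finset.sum_congr rfl fun j _ => ?_
      rw [mul_diagonal, mul_diagonal, hρ]; rfl
    have e3 : ∀ G : κ → ℂ, ∀ i, (ρ * diagonal G * Tᴴ) () i = (R * diagonal G * Tᴴ) s i := by
      intro G i
      rw [mul_apply, mul_apply]
      refine Finset.sum_congr rfl fun j _ => ?_
      rw [mul_diagonal, mul_diagonal, hρ]; rfl
    have f1 : T * ρᴴ = 0 := by
      ext u v
      have := congrFun (congrFun H.hTR u) s
      rw [mul_apply] at this
      rw [mul_apply, Matrix.zero_apply]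
      refine Eq.trans ?_ this
      refine Finset.sum_congr rfl fun j _ => ?_
      rw [hρ]; rfl
    have f2 : ρ * Tᴴ = 0 := by
      ext u v
      have := congrFun (congrFun H.hRT s) v
      rw [mul_apply] at this
      rw [mul_apply, Matrix.zero_apply]
      refine Eq.trans ?_ this
      refine Finset.sum_congr rfl fun j _ => ?_
      rw [hρ]; rfl
    have f3 : ρ * ρᴴ = 1 := by
      ext u v
      have := congrFun (congrFun H.hR s) s
      rw [mul_apply, one_apply_eq] at this
      rw [mul_apply, show u = v from rfl, one_apply_eq, ← this]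
      refine Finset.sum_congr rfl fun j _ => ?_
      rw [hρ]; rfl
    have g1 : fromRows T ρ * (fromRows T ρ)ᴴ = 1 := by
      rw [conjTranspose_fromRows_eq_fromCols_conjTranspose, fromRows_mul_fromCols, H.hT, f3, f2,
        f1, fromBlocks_one]
    have g2 : fromRows T ρ * diagonal (fun j => (lf (d s) (b j) : ℂ)) * (fromRows T ρ)ᴴ
        = diagonal (fun x => ((Sum.elim (fun i => lf (d s) (a i)) (fun _ => p s) x : ℝ) : ℂ)) := by
      have g3 : (fun x : ι ⊕ Unit =>
          ((Sum.elim (fun i => lf (d s) (a i)) (fun _ => p s) x : ℝ) : ℂ))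
          = Sum.elim (fun i => (lf (d s) (a i) : ℂ)) (fun _ => (p s : ℂ)) := by
        funext x
        cases x <;> rfl
      rw [conjTranspose_fromRows_eq_fromCols_conjTranspose, fromRows_mul,
        fromRows_mul_fromCols, H.comp, g3, ← fromBlocks_diagonal]
      congr 1
      · ext i u
        rw [show u = () from rfl, e1, H.off_self i s, Matrix.zero_apply]
      · ext u i
        rw [show u = () from rfl, e3, H.off_self' s i, Matrix.zero_apply]
      · ext u v
        rw [show u = () from rfl, show v = () from rfl, e2, ← hKe, hp, diagonal_apply_eq]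
    obtain ⟨h1, h2⟩ := cauchy_count (fromRows T ρ) g1
      (fun j => lf (d s) (b j)) (Sum.elim (fun i => lf (d s) (a i)) (fun _ => p s)) g2 t
    have c1 : (Finset.univ.filter (fun x : ι ⊕ Unit =>
        t ≤ Sum.elim (fun i => lf (d s) (a i)) (fun _ => p s) x)).card
        = (Finset.univ.filter (fun i => t ≤ lf (d s) (a i))).card
          + (if t ≤ p s then 1 else 0) := by
      rw [Finset.card_filter, Fintype.sum_sum_type, ← Finset.card_filter]
      congr 1
    have c2 : (Finset.univ.filter (fun x : ι ⊕ Unit =>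
        t ≤ Sum.elim (fun i => lf (d s) (a i)) (fun _ => p s) x)).card
        + (Finset.univ.filter (fun x : ι ⊕ Unit =>
        Sum.elim (fun i => lf (d s) (a i)) (fun _ => p s) x < t)).card
        = Fintype.card ι + 1 := by
      have := Finset.card_filter_add_card_filter_not (s := (Finset.univ : Finset (ι ⊕ Unit)))
        (fun x => t ≤ Sum.elim (fun i => lf (d s) (a i)) (fun _ => p s) x)
      simp only [not_le] at this
      rw [this, Finset.card_univ, Fintype.card_sum]
      rfl
    have c3 : (Finset.univ.filter (fun j => t ≤ lf (d s) (b j))).card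
        + (Finset.univ.filter (fun j => lf (d s) (b j) < t)).card = Fintype.card κ := by
      have := Finset.card_filter_add_card_filter_not (s := (Finset.univ : Finset κ))
        (fun j => t ≤ lf (d s) (b j))
      simp only [not_le] at this
      rw [this, Finset.card_univ]
    have hm : 0 < m := s.pos
    constructor
    · rw [← c1]; exact h1
    · rw [← c1]; omega

end

end Pool.Agent.Helper41.NC
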