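import Mathlib

/-!
# Linear algebra for normal compressions

Spectral theorem for normal matrices, completion of orthonormal rows, matrices with equal
Gram matrices, rank comparison, interlacing by dimension count.
-/

namespace Pool.Agent.Helper41.NC

open Matrix Module
open scoped ComplexOrder

variable {ι κ μ : Type*} [Fintype ι] [Fintype κ] [Fintype μ]
  [DecidableEq ι] [DecidableEq κ] [DecidableEq μ]

/-- If a matrix commutes with its adjoint then eigenvectors are eigenvectors of the adjoint. -/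
theorem adj_eig (M : Matrix κ κ ℂ) (hM : M * Mᴴ = Mᴴ * M) (c : ℂ) (v : κ → ℂ)
    (h : M *ᵥ v = c • v) : Mᴴ *ᵥ v = (starRingEnd ℂ c) • v := by
  have h1 : (M - c • (1 : Matrix κ κ ℂ)) *ᵥ v = 0 := by
    rw [sub_mulVec, smul_mulVec, one_mulVec, h, sub_self]
  have hN : (M - c • (1 : Matrix κ κ ℂ)) * (M - c • (1 : Matrix κ κ ℂ))ᴴ
      = (M - c • (1 : Matrix κ κ ℂ))ᴴ * (M - c • (1 : Matrix κ κ ℂ)) := by
    rw [conjTranspose_sub, conjTranspose_smul, conjTranspose_one, sub_mul, mul_sub, mul_sub,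
      sub_mul, mul_sub, mul_sub, hM]
    simp only [Matrix.smul_mul, Matrix.mul_smul, one_mul, mul_one]
    rw [smul_comm]
    abel
  have h2 : ((M - c • (1 : Matrix κ κ ℂ)) * (M - c • (1 : Matrix κ κ ℂ))ᴴ) *ᵥ v = 0 := by
    rw [hN, ← mulVec_mulVec, h1, mulVec_zero]
  rw [self_mul_conjTranspose_mulVec_eq_zero] at h2
  rw [conjTranspose_sub, conjTranspose_smul, conjTranspose_one, sub_mulVec, smul_mulVec,
    one_mulVec, sub_eq_zero] at h2
  exact h2

theorem eig_family (M : Matrix κ κ ℂ) (hM : M * Mᴴ = Mᴴ * M) :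
    ∀ m : ℕ, m ≤ Fintype.card κ → ∃ v : Fin m → EuclideanSpace ℂ κ, Orthonormal ℂ v ∧
      ∃ c : Fin m → ℂ, ∀ i, toEuclideanLin M (v i) = c i • v i := by
  intro m
  induction m with
  | zero =>
    intro _
    refine ⟨Fin.elim0, ⟨fun i => i.elim0, fun i => i.elim0⟩, Fin.elim0, fun i => i.elim0⟩
  | succ m ih =>
    intro hm
    obtain ⟨v, hv, c, hc⟩ := ih (by omega)
    set W : Submodule ℂ (EuclideanSpace ℂ κ) := (Submodule.span ℂ (Set.range v))ᗮ with hW
    have hadj : ∀ i (x : EuclideanSpace ℂ κ), inner ℂ (v i) (toEuclideanLin M x)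
        = c i * inner ℂ (v i) x := by
      intro i x
      have h1 : toEuclideanLin Mᴴ (v i) = (starRingEnd ℂ (c i)) • v i := by
        have h2 := adj_eig M hM (c i) (v i).ofLp (by
          have := congrArg WithLp.ofLp (hc i)
          simpa using this)
        apply (WithLp.ofLp_injective 2)
        simpa using h2
      have h3 : inner ℂ (v i) (toEuclideanLin M x) = inner ℂ (toEuclideanLin Mᴴ (v i)) x := by
        rw [Matrix.toEuclideanLin_conjTranspose_eq_adjoint, LinearMap.adjoint_inner_left]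
      rw [h3, h1, inner_smul_left]
      simp
    have hT : ∀ x ∈ W, toEuclideanLin M x ∈ W := by
      intro x hx
      rw [hW, Submodule.mem_orthogonal] at hx ⊢
      intro u hu
      induction hu using Submodule.span_induction with
      | mem u hu =>
        obtain ⟨i, rfl⟩ := hu
        rw [hadj i x, hx _ (Submodule.subset_span ⟨i, rfl⟩), mul_zero]
      | zero => simp
      | add a b _ _ ha hb => rw [inner_add_left, ha, hb, add_zero]
      | smul a b _ hb => rw [inner_smul_left, hb, mul_zero]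
    have hfin : finrank ℂ (Submodule.span ℂ (Set.range v)) = m := by
      rw [finrank_span_eq_card hv.linearIndependent, Fintype.card_fin]
    have hWpos : 0 < finrank ℂ W := by
      have := Submodule.finrank_add_finrank_orthogonal (Submodule.span ℂ (Set.range v))
      rw [hfin, finrank_euclideanSpace] at this
      have h5 : finrank ℂ W = finrank ℂ ((Submodule.span ℂ (Set.range v))ᗮ : Submodule ℂ _) := rfl
      omega
    have : Nontrivial W := Module.finrank_pos_iff.mp hWpos
    obtain ⟨d, hd⟩ := Module.End.exists_eigenvalue ((toEuclideanLin M).restrict hT)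
    obtain ⟨w, hw⟩ := hd.exists_hasEigenvector
    have hw0 : (w : EuclideanSpace ℂ κ) ≠ 0 := by
      intro h; exact hw.2 (Subtype.ext h)
    have hwe : toEuclideanLin M (w : EuclideanSpace ℂ κ) = d • (w : EuclideanSpace ℂ κ) := by
      have := congrArg Subtype.val hw.apply_eq_smul
      simpa using this
    set u : EuclideanSpace ℂ κ := ((‖(w : EuclideanSpace ℂ κ)‖⁻¹ : ℝ) : ℂ) • (w : EuclideanSpace ℂ κ) with hu
    have hun : ‖u‖ = 1 := by
      rw [hu, norm_smul, Complex.norm_real, norm_inv, norm_norm,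
        inv_mul_cancel₀ (norm_ne_zero_iff.mpr hw0)]
    have huW : u ∈ W := W.smul_mem _ w.2
    refine ⟨vecCons u v, ?_, vecCons d c, ?_⟩
    · rw [orthonormal_vecCons_iff]
      refine ⟨hun, fun i => ?_, hv⟩
      have := (Submodule.mem_orthogonal' _ _).mp huW (v i) (Submodule.subset_span ⟨i, rfl⟩)
      exact this
    · intro i
      refine Fin.cases ?_ (fun j => ?_) i
      · simp only [cons_val_zero]
        rw [hu, map_smul, hwe, smul_comm]
      · simp only [cons_val_succ]
        exact hc j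

/-- Spectral theorem for normal matrices. -/
theorem normal_diag (M : Matrix κ κ ℂ) (hM : M * Mᴴ = Mᴴ * M) :
    ∃ (U : Matrix κ κ ℂ) (c : κ → ℂ), U * Uᴴ = 1 ∧ Uᴴ * U = 1 ∧ U * M * Uᴴ = diagonal c := by
  obtain ⟨v, hv, c, hc⟩ := eig_family M hM (Fintype.card κ) le_rfl
  let e : κ ≃ Fin (Fintype.card κ) := Fintype.equivFin κ
  let V : Matrix κ κ ℂ := of fun j i => (v (e i)).ofLp j
  have hVV : Vᴴ * V = 1 := by
    ext i j
    rw [mul_apply]
    have h1 := (orthonormal_iff_ite.mp hv) (e i) (e j)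
    rw [PiLp.inner_apply] at h1
    simp only [V, conjTranspose_apply, of_apply, one_apply]
    simp only [RCLike.inner_apply, EmbeddingLike.apply_eq_iff_eq] at h1
    rw [← h1]
    refine Finset.sum_congr rfl fun x _ => ?_
    rw [mul_comm]
    rfl
  have hVV' : V * Vᴴ = 1 := mul_eq_one_comm.mp hVV
  refine ⟨Vᴴ, fun i => c (e i), by rw [conjTranspose_conjTranspose]; exact hVV,
    by rw [conjTranspose_conjTranspose]; exact hVV', ?_⟩
  rw [conjTranspose_conjTranspose]
  have hMV : M * V = V * diagonal (fun i => c (e i)) := by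
    ext j i
    have h1 := congrArg (fun x => (WithLp.ofLp x) j) (hc (e i))
    simp only [WithLp.ofLp_smul, Pi.smul_apply, smul_eq_mul] at h1
    rw [mul_diagonal]
    simp only [V, of_apply]
    rw [mul_comm, ← h1]
    rfl
  rw [Matrix.mul_assoc, hMV, ← Matrix.mul_assoc, hVV, Matrix.one_mul]

/-- Completion of orthonormal rows to a unitary. -/
theorem complete (T : Matrix ι κ ℂ) (hT : T * Tᴴ = 1)
    (hcard : Fintype.card κ = Fintype.card ι + Fintype.card μ) :
    ∃ R : Matrix μ κ ℂ, R * Rᴴ = 1 ∧ R * Tᴴ = 0 ∧ T * Rᴴ = 0 ∧ Tᴴ * T + Rᴴ * R = 1 := by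
  let v : ι ⊕ μ → EuclideanSpace ℂ κ := Sum.elim (fun i => WithLp.toLp 2 (T i)) (fun _ => 0)
  have hv : Orthonormal ℂ ((Set.range (Sum.inl : ι → ι ⊕ μ)).domRestrict v) := by
    rw [orthonormal_iff_ite]
    rintro ⟨_, ⟨i, rfl⟩⟩ ⟨_, ⟨j, rfl⟩⟩
    have h1 := congrFun (congrFun hT j) i
    rw [mul_apply, one_apply] at h1
    have h2 : (inner ℂ (v (Sum.inl i)) (v (Sum.inl j)) : ℂ) = if j = i then 1 else 0 := by
      rw [← h1, PiLp.inner_apply]
      refine Finset.sum_congr rfl fun x _ => ?_
      rfl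
    refine h2.trans (if_congr ?_ rfl rfl)
    constructor
    · rintro rfl; rfl
    · intro h
      have := congrArg Subtype.val h
      exact (Sum.inl_injective this).symm
  obtain ⟨b, hb⟩ := hv.exists_orthonormalBasis_extension_of_card_eq (by
    rw [finrank_euclideanSpace, Fintype.card_sum, hcard])
  let R : Matrix μ κ ℂ := of fun s j => (b (Sum.inr s)).ofLp j
  have hbT : ∀ i, (b (Sum.inl i)).ofLp = T i := by
    intro i
    rw [hb (Sum.inl i) ⟨i, rfl⟩]
    rfl
  have hU : fromRows T R * (fromRows T R)ᴴ = 1 := by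
    ext p q
    have h1 := (orthonormal_iff_ite.mp b.orthonormal) q p
    rw [PiLp.inner_apply] at h1
    rw [mul_apply, one_apply, show (if p = q then (1 : ℂ) else 0) = if q = p then 1 else 0 by
      simp [eq_comm], ← h1]
    refine Finset.sum_congr rfl fun x _ => ?_
    have h2 : ∀ p : ι ⊕ μ, (fromRows T R) p x = (b p).ofLp x := by
      rintro (i | s)
      · rw [hbT i]; rfl
      · rfl
    rw [conjTranspose_apply, h2, h2]
    rfl
  have hU' : (fromRows T R)ᴴ * fromRows T R = 1 :=
    (mul_eq_one_comm_of_card_eq _ _ _ (by rw [Fintype.card_sum, hcard])).mp hU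
  rw [conjTranspose_fromRows_eq_fromCols_conjTranspose] at hU hU'
  rw [fromCols_mul_fromRows] at hU'
  rw [fromRows_mul_fromCols, ← fromBlocks_one, fromBlocks_inj] at hU
  exact ⟨R, hU.2.2.2, hU.2.2.1, hU.2.1, hU'⟩

/-- Two matrices with the same Gram matrix differ by a unitary. -/
theorem gram_unitary (X Y : Matrix ι μ ℂ) (h : X * Xᴴ = Y * Yᴴ) :
    ∃ W : Matrix μ μ ℂ, W * Wᴴ = 1 ∧ Wᴴ * W = 1 ∧ Y = X * W := by
  let f := toEuclideanLin Xᴴ
  let g := toEuclideanLin Yᴴ
  have hnorm : ∀ c, ‖f c‖ = ‖g c‖ := by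
    intro c
    have h1 : ∀ Z : Matrix ι μ ℂ, (inner ℂ (toEuclideanLin Zᴴ c) (toEuclideanLin Zᴴ c) : ℂ)
        = inner ℂ c (toEuclideanLin (Z * Zᴴ) c) := by
      intro Z
      rw [Matrix.toEuclideanLin_conjTranspose_eq_adjoint, LinearMap.adjoint_inner_left,
        ← Matrix.toEuclideanLin_conjTranspose_eq_adjoint]
      congr 1
      apply WithLp.ofLp_injective 2
      simp [mulVec_mulVec]
    have h2 : (inner ℂ (f c) (f c) : ℂ) = inner ℂ (g c) (g c) := by
      rw [h1 X, h1 Y, h]
    rw [inner_self_eq_norm_sq_to_K, inner_self_eq_norm_sq_to_K] at h2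
    have h3 : ‖f c‖ ^ 2 = ‖g c‖ ^ 2 := by exact_mod_cast h2
    exact (sq_eq_sq₀ (norm_nonneg _) (norm_nonneg _)).mp h3
  obtain ⟨s, hs⟩ := f.rangeRestrict.exists_rightInverse_of_surjective f.range_rangeRestrict
  have hs' : ∀ x : LinearMap.range f, f (s x) = x := by
    intro x
    have := congrArg Subtype.val (LinearMap.congr_fun hs x)
    simpa using this
  let L : LinearMap.range f →ₗᵢ[ℂ] EuclideanSpace ℂ μ :=
    { toLinearMap := g ∘ₗ s
      norm_map' := by
        intro x
        change ‖g (s x)‖ = ‖x‖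
        rw [← hnorm, hs' x]
        rfl }
  have hL : ∀ c, L.extend (f c) = g c := by
    intro c
    have h1 := L.extend_apply ⟨f c, c, rfl⟩
    have h2 : (L ⟨f c, c, rfl⟩ : EuclideanSpace ℂ μ) = g (s ⟨f c, c, rfl⟩) := rfl
    rw [h2] at h1
    have h3 : g (s ⟨f c, c, rfl⟩ - c) = 0 := by
      rw [← norm_eq_zero, ← hnorm, map_sub, hs' ⟨f c, c, rfl⟩, sub_self, norm_zero]
    rw [map_sub, sub_eq_zero] at h3
    rw [← h3]
    exact h1
  let K : Matrix μ μ ℂ := toEuclideanLin.symm L.extend.toLinearMap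
  have hKa : toEuclideanLin K = L.extend.toLinearMap := LinearEquiv.apply_symm_apply _ _
  have hKu : Kᴴ * K = 1 := by
    apply toEuclideanLin.injective
    apply LinearMap.ext
    intro x
    apply ext_inner_left ℂ
    intro y
    have h1 : toEuclideanLin (Kᴴ * K) x = toEuclideanLin Kᴴ (toEuclideanLin K x) := by
      apply WithLp.ofLp_injective 2
      simp [mulVec_mulVec]
    rw [h1, Matrix.toEuclideanLin_conjTranspose_eq_adjoint, LinearMap.adjoint_inner_right, hKa]
    change (inner ℂ (L.extend y) (L.extend x) : ℂ) = _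
    rw [LinearIsometry.inner_map_map]
    congr 1
    apply WithLp.ofLp_injective 2
    simp
  have hKu' : K * Kᴴ = 1 := mul_eq_one_comm.mp hKu
  have hKX : K * Xᴴ = Yᴴ := by
    apply toEuclideanLin.injective
    apply LinearMap.ext
    intro c
    have h1 : toEuclideanLin (K * Xᴴ) c = toEuclideanLin K (toEuclideanLin Xᴴ c) := by
      apply WithLp.ofLp_injective 2
      simp [mulVec_mulVec]
    rw [h1, hKa]
    exact hL c
  refine ⟨Kᴴ, by rw [conjTranspose_conjTranspose]; exact hKu,
    by rw [conjTranspose_conjTranspose]; exact hKu', ?_⟩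
  have := congrArg conjTranspose hKX
  rw [conjTranspose_mul, conjTranspose_conjTranspose, conjTranspose_conjTranspose] at this
  exact this.symm

omit [DecidableEq κ] in
/-- Rank comparison. -/
theorem card_le_of_mul (N : Matrix ι κ ℂ) (h : N * Nᴴ = 1) :
    Fintype.card ι ≤ Fintype.card κ := by
  have h1 : (1 : Matrix ι ι ℂ).rank = Fintype.card ι := Matrix.rank_one
  rw [← h1, ← h]
  exact (Matrix.rank_mul_le_left N Nᴴ).trans (Matrix.rank_le_card_width N)

end Pool.Agent.Helper41.NC
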