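import Pool.Agent.Helper41.NC.Two

/-!
# The characterisation in codimension two
-/

namespace Pool.Agent.Helper41.NC

open Matrix Module

section
variable {ι κ : Type*} [Fintype ι] [Fintype κ] [DecidableEq ι] [DecidableEq κ]

theorem map_sum_elim {α β X : Type*} [Fintype α] [Fintype β] (f : α → X) (g : β → X) :
    Finset.univ.val.map (Sum.elim f g) = Finset.univ.val.map f + Finset.univ.val.map g := by
  rw [← Finset.univ_disjSum_univ, Finset.val_disjSum, Multiset.disjSum, Multiset.map_add,
    Multiset.map_map, Multiset.map_map]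
  rfl

theorem core_of_lineStep {a : ι → ℂ} {b : κ → ℂ}
    (h : LineStep (Finset.univ.val.map a) (Finset.univ.val.map b)) : Core a b := by
  obtain ⟨m, r, s, e, γ, α, hrs, ha, hb⟩ := h
  obtain ⟨d, hd⟩ := exists_enum e
  have h1 := (core_line hrs γ α).sum d
  refine h1.of_map_eq ?_ ?_
  · rw [map_sum_elim, hd, ha]
  · rw [map_sum_elim, hd, hb]

theorem map_subtype_ne {m : ℕ} (p : Fin m) (f : Fin m → ℂ) :
    Finset.univ.val.map (fun i : {i // i ≠ p} => f i) = (Finset.univ.erase p).val.map f := by
  have h1 : (Finset.univ.erase p) = (Finset.univ : Finset {i // i ≠ p}).map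
      (Function.Embedding.subtype _) := by
    ext i
    simp
  rw [h1, Finset.map_val, Multiset.map_map]
  rfl

theorem core_of_hypStep {a : ι → ℂ} {b : κ → ℂ}
    (h : HypStep (Finset.univ.val.map a) (Finset.univ.val.map b)) : Core a b := by
  obtain ⟨m, r, s, p, e, γ, α, β, hrs, hp, ha, hb⟩ := h
  obtain ⟨d, hd⟩ := exists_enum e
  have h1 := (core_hyp hrs p hp γ α β).sum d
  refine h1.of_map_eq ?_ ?_
  · rw [map_sum_elim, hd, ha, map_subtype_ne p (fun i => γ + α * s i + β / s i)]
  · rw [map_sum_elim, hd, hb]

end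

/-- Codimension one (known: Fan and Pall). -/
theorem codim_one (k : ℕ) (a : Fin k → ℂ) (b : Fin (k + 1) → ℂ) :
    Realizable a b ↔ LineStep (entries a) (entries b) := by
  rw [realizable_iff_core]
  exact ⟨nec_one a b (by simp), core_of_lineStep⟩

/-- Codimension two. -/
theorem codim_two (k : ℕ) (a : Fin k → ℂ) (b : Fin (k + 2) → ℂ) :
    Realizable a b ↔
      (∃ c : Fin (k + 1) → ℂ, LineStep (entries a) (entries c) ∧
        LineStep (entries c) (entries b)) ∨
      HypStep (entries a) (entries b) := by
  rw [realizable_iff_core]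
  constructor
  · intro h
    rcases nec_two a b (by simp) h with ⟨c, h1, h2⟩ | h1
    · left
      obtain ⟨c', hc'⟩ := exists_enum' (Finset.univ.val.map c) (k + 1) (by
        rw [Multiset.card_map]; simp)
      have h3 : Core a c' := h1.of_map_eq rfl hc'
      have h4 : Core c' b := h2.of_map_eq hc' rfl
      exact ⟨c', nec_one a c' (by simp) h3, nec_one c' b (by simp) h4⟩
    · exact Or.inr h1
  · rintro (⟨c, h1, h2⟩ | h1)
    · exact (core_of_lineStep h1).trans (core_of_lineStep h2)
    · exact core_of_hypStep h1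

end Pool.Agent.Helper41.NC
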