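import Pool.Agent.Helper41.NC.Cons

/-!
# Necessity
-/

namespace Pool.Agent.Helper41.NC

open Matrix Module

theorem count_entries {ι : Type*} [Fintype ι] (a : ι → ℂ) (l : ℂ) :
    (Finset.univ.val.map a).count l = Fintype.card {i // a i = l} := by
  classical
  rw [Multiset.count_map, Fintype.card_subtype, Finset.card_def, Finset.filter_val]
  congr 1
  apply Multiset.filter_congr
  intro i _
  exact eq_comm

theorem mem_sub_iff (A B : Multiset ℂ) (l : ℂ) : l ∈ A - B ↔ B.count l < A.count l := by
  classical
  rw [← Multiset.one_le_count_iff_mem, Multiset.count_sub]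
  omega

theorem assemble (A B : Multiset ℂ) (L : ℂ → ℝ) (P : Multiset ℝ) (z : ℝ → ℂ) (m : ℕ)
    (hcard : B.card = A.card + P.card + 1) (hm : m = P.card + (A - B).card)
    (hC : CInt (B.map L) (P + A.map L))
    (hA : ∀ l ∈ A - B, z (L l) = l) (hB : ∀ l ∈ B - A, z (L l) = l)
    (hP : ∀ l ∈ B - A, L l ∉ P) :
    ∃ (r : Fin (m + 1) → ℝ) (s : Fin m → ℝ), Alternate r s ∧
      Finset.univ.val.map r = (B - A).map L ∧ Finset.univ.val.map s = P + (A - B).map L := by
  classical
  have eA : A = A ∩ B + (A - B) := by
    rw [add_comm]; exact (Multiset.sub_add_inter A B).symm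
  have eB : B = A ∩ B + (B - A) := by
    rw [add_comm, Multiset.inter_comm]; exact (Multiset.sub_add_inter B A).symm
  have cA := congrArg Multiset.card eA
  have cB := congrArg Multiset.card eB
  rw [Multiset.card_add] at cA cB
  apply alternate_of_cint
  · rw [Multiset.card_add, Multiset.card_map, hm]
  · rw [Multiset.card_map]; omega
  · apply CInt.cancel (e := (A ∩ B).map L)
    have e1 : (A ∩ B).map L + (B - A).map L = B.map L := by
      rw [← Multiset.map_add, ← eB]
    have e2 : (A ∩ B).map L + (P + (A - B).map L) = P + A.map L := by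
      rw [add_left_comm, ← Multiset.map_add, ← eA]
    rw [e1, e2]
    exact hC
  · intro x hx hx'
    rw [Multiset.mem_map] at hx
    obtain ⟨l, hl, rfl⟩ := hx
    rw [Multiset.mem_add] at hx'
    rcases hx' with h | h
    · exact hP l hl h
    · rw [Multiset.mem_map] at h
      obtain ⟨l', hl', he⟩ := h
      have h1 : l = l' := by rw [← hB l hl, ← hA l' hl', he]
      rw [← h1, mem_sub_iff] at hl'
      rw [mem_sub_iff] at hl
      omega

section
variable {ι κ : Type*} [Fintype ι] [Fintype κ] [DecidableEq ι] [DecidableEq κ]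

theorem card_entries (a : ι → ℂ) : (Finset.univ.val.map a).card = Fintype.card ι := by
  rw [Multiset.card_map]; rfl

theorem nec_one (a : ι → ℂ) (b : κ → ℂ) (hcard : Fintype.card κ = Fintype.card ι + 1)
    (h : Core a b) : LineStep (Finset.univ.val.map a) (Finset.univ.val.map b) := by
  classical
  obtain ⟨T, hT, hD⟩ := h
  obtain ⟨R, d, H⟩ := exists_adapted (μ := Unit) T a b hT hD (by rw [hcard]; rfl)
  set δ := d () with hδ
  have hδ1 : δ * starRingEnd ℂ δ = 1 := H.hd ()
  have hδ0 : δ ≠ 0 := by rintro h0; rw [h0] at hδ1; simp at hδ1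
  set L : κ → ℂ := fun j => (lf δ (b j) : ℂ) with hL
  set p : ℂ := (R * diagonal L * Rᴴ) () () with hp
  have hoff : ∀ i, (T * diagonal L * Rᴴ) i () = 0 := fun i => H.off_self i ()
  have hoff' : ∀ i, (R * diagonal L * Tᴴ) () i = 0 := by
    intro i
    have h1 : R * diagonal L * Tᴴ = (T * diagonal L * Rᴴ)ᴴ := by
      rw [conjTranspose_mul, conjTranspose_mul, conjTranspose_conjTranspose,
        diagonal_conjTranspose, ← Matrix.mul_assoc]
      congr 3
      funext j
      simp only [Pi.star_apply, hL, Complex.star_def, Complex.conj_ofReal]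
    rw [h1, conjTranspose_apply, hoff i, star_zero]
  have hbp : ∀ j, R () j ≠ 0 → (lf δ (b j) : ℂ) = p := by
    intro j hj
    have h1 := congrFun (congrFun (H.expand R L) ()) j
    rw [mul_diagonal, Matrix.add_apply, mul_apply, mul_apply,
      Finset.sum_eq_zero (fun i _ => by rw [hoff' i, zero_mul]), zero_add] at h1
    simp only [Finset.univ_unique, PUnit.default_eq_unit, Finset.sum_singleton] at h1
    rw [mul_comm] at h1
    exact mul_right_cancel₀ hj h1
  have hap : ∀ i, (T * diagonal b * Rᴴ) i () ≠ 0 → (lf δ (a i) : ℂ) = p := by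
    intro i hi
    have h1 := H.commute L b (fun i => (lf δ (a i) : ℂ)) a (H.comp δ) H.hD i ()
    simp only [Finset.univ_unique, PUnit.default_eq_unit, Finset.sum_singleton] at h1
    rw [hoff i, zero_mul, add_zero, mul_zero, zero_add, mul_comm] at h1
    exact mul_left_cancel₀ hi h1
  set A := Finset.univ.val.map a with hA
  set B := Finset.univ.val.map b with hB
  have hAm : ∀ l ∈ A - B, (lf δ l : ℂ) = p := by
    intro l hl
    rw [mem_sub_iff, hA, hB, count_entries, count_entries] at hl
    obtain ⟨i, rfl, s, hs⟩ := H.supp_a l hl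
    exact hap i hs
  have hBm : ∀ l ∈ B - A, (lf δ l : ℂ) = p := by
    intro l hl
    rw [mem_sub_iff, hA, hB, count_entries, count_entries] at hl
    obtain ⟨j, rfl, s, hs⟩ := H.supp_b l hl
    exact hbp j hs
  have hz : ∀ l : ℂ, (lf δ l : ℂ) = p →
      (starRingEnd ℂ δ * Complex.I * p) + starRingEnd ℂ δ * (lf (Complex.I * δ) l : ℂ) = l := by
    intro l hl
    rw [← hl, lf_eq, lf_eq]
    simp only [map_mul, Complex.conj_I]
    have hI : Complex.I * Complex.I = -1 := Complex.I_mul_I
    field_simp
    linear_combination (2 * l) * hδ1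
  have hcardA := card_entries a
  have hcardB := card_entries b
  obtain ⟨r, s, hrs, hr, hs⟩ := assemble A B (lf (Complex.I * δ)) 0
    (fun x => (starRingEnd ℂ δ * Complex.I * p) + starRingEnd ℂ δ * (x : ℂ)) (A - B).card
    (by rw [hA, hB, hcardA, hcardB, hcard]; simp) (by simp)
    (by
      have h1 := cint_of_matrix hcard T hT (fun j => lf (Complex.I * δ) (b j))
        (fun i => lf (Complex.I * δ) (a i)) (H.comp (Complex.I * δ))
      rw [zero_add, hA, hB, Multiset.map_map, Multiset.map_map]
      exact h1)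
    (fun l hl => hz l (hAm l hl)) (fun l hl => hz l (hBm l hl)) (fun l _ => by simp)
  refine ⟨(A - B).card, r, s, A ∩ B, starRingEnd ℂ δ * Complex.I * p, starRingEnd ℂ δ, hrs, ?_, ?_⟩
  · have e1 : Finset.univ.val.map (fun i => (starRingEnd ℂ δ * Complex.I * p)
        + starRingEnd ℂ δ * (s i : ℂ)) = A - B := by
      have e2 := congrArg (Multiset.map (fun x : ℝ => (starRingEnd ℂ δ * Complex.I * p)
        + starRingEnd ℂ δ * (x : ℂ))) hs
      rw [Multiset.map_map, zero_add, Multiset.map_map] at e2
      refine Eq.trans e2 ?_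
      refine Eq.trans (Multiset.map_congr rfl fun l hl => ?_) (Multiset.map_id (A - B))
      exact hz l (hAm l hl)
    rw [e1, add_comm, Multiset.sub_add_inter]
  · have e1 : Finset.univ.val.map (fun i => (starRingEnd ℂ δ * Complex.I * p)
        + starRingEnd ℂ δ * (r i : ℂ)) = B - A := by
      have e2 := congrArg (Multiset.map (fun x : ℝ => (starRingEnd ℂ δ * Complex.I * p)
        + starRingEnd ℂ δ * (x : ℂ))) hr
      rw [Multiset.map_map, Multiset.map_map] at e2
      refine Eq.trans e2 ?_
      refine Eq.trans (Multiset.map_congr rfl fun l hl => ?_) (Multiset.map_id (B - A))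
      exact hz l (hBm l hl)
    rw [e1, add_comm, Multiset.inter_comm, Multiset.sub_add_inter]

end

end Pool.Agent.Helper41.NC
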