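import Pool.Agent.Helper41.NC.Main

/-!
# Rational curves: a sufficient condition in every codimension
-/

namespace Pool.Agent.Helper41.NC

open Matrix Module

theorem quad_pole {κ : Type*} [Fintype κ] (D ξ : κ → ℝ) (x y c : ℝ) (hx : ∀ j, ξ j ≠ x)
    (hy : ∀ j, ξ j ≠ y) (h0 : ∀ j, ξ j ≠ c) (hx0 : x ≠ c)
    (hy0 : y ≠ c) (h1 : ∑ j, D j / (ξ j - y) = 0) (h2 : ∑ j, D j / (ξ j - c) = 0) :
    ∑ j, D j * (ξ j - x)⁻¹ * (ξ j - y)⁻¹ * (ξ j - c)⁻¹
      = (x - c)⁻¹ * ∑ j, D j * (ξ j - x)⁻¹ * (ξ j - y)⁻¹ := by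
  have := quad_inv D (fun j => ξ j - c) (x - c) (y - c)
    (fun j h => hx j (by linarith)) (fun j h => hy j (by linarith))
    (fun j h => h0 j (by linarith)) (fun h => hx0 (by linarith)) (fun h => hy0 (by linarith))
    (by simpa using h1) h2
  simpa using this

theorem core_rat {m : ℕ} {r : Fin (m + 1) → ℝ} {s : Fin m → ℝ} (h : Alternate r s)
    (Q : Finset (Fin m)) (γ α : ℂ) (β : Fin m → ℂ) :
    Core (fun i : {i // i ∉ Q} => γ + α * s i + ∑ q ∈ Q, β q / ((s i : ℂ) - s q))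
      (fun j => γ + α * r j + ∑ q ∈ Q, β q / ((r j : ℂ) - s q)) := by
  have h1 : ∀ i i' : {i // i ∉ Q}, ∑ j, wt r s j * (r j - s i)⁻¹ * (r j - s i')⁻¹
      = if i = i' then ∑ j, wt r s j * (r j - s i)⁻¹ * (r j - s i)⁻¹ else 0 := by
    intro i i'
    by_cases hi : i = i'
    · subst hi; rw [if_pos rfl]
    · rw [if_neg hi]
      exact quad_one _ _ _ _ (fun j => h.ne j i) (fun j => h.ne j i')
        (fun e => hi (Subtype.ext (h.strictMono'.injective e))) (wt_sum h i) (wt_sum h i')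
  refine core_of_weights (wt r s) (wt_pos h) (fun (i : {i // i ∉ Q}) j => (r j - s i)⁻¹)
    (fun i => ∑ j, wt r s j * (r j - s i)⁻¹ * (r j - s i)⁻¹) (fun i => norm_pos h i) _ _ h1 ?_
  intro i i'
  have hne : ∀ (i : {i // i ∉ Q}) (q : Fin m), q ∈ Q → s i ≠ s q := fun i q hq e =>
    i.2 (by rw [h.strictMono'.injective e]; exact hq)
  have h3 := quad_id (wt r s) r (s i) (s i') (fun j => h.ne j i) (fun j => h.ne j i') (wt_sum h i')
  have h5 : ∀ q ∈ Q, ∑ j, wt r s j * (r j - s i)⁻¹ * (r j - s i')⁻¹ * (r j - s q)⁻¹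
      = (s i - s q)⁻¹ * ∑ j, wt r s j * (r j - s i)⁻¹ * (r j - s i')⁻¹ := fun q hq =>
    quad_pole (wt r s) r (s i) (s i') (s q) (fun j => h.ne j i) (fun j => h.ne j i')
      (fun j => h.ne j q) (hne i q hq) (hne i' q hq) (wt_sum h i') (wt_sum h q)
  have h4 : ∑ j, ((wt r s j * (r j - s i)⁻¹ * (r j - s i')⁻¹ : ℝ) : ℂ)
        * (γ + α * r j + ∑ q ∈ Q, β q / ((r j : ℂ) - s q))
      = γ * ((∑ j, wt r s j * (r j - s i)⁻¹ * (r j - s i')⁻¹ : ℝ) : ℂ)
        + α * ((∑ j, wt r s j * (r j - s i)⁻¹ * (r j - s i')⁻¹ * r j : ℝ) : ℂ)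
        + ∑ q ∈ Q, β q *
          ((∑ j, wt r s j * (r j - s i)⁻¹ * (r j - s i')⁻¹ * (r j - s q)⁻¹ : ℝ) : ℂ) := by
    simp only [mul_add, Finset.sum_add_distrib]
    congr 1
    · push_cast
      rw [Finset.mul_sum, Finset.mul_sum]
      congr 1
      · refine Finset.sum_congr rfl fun j _ => ?_
        ring
      · refine Finset.sum_congr rfl fun j _ => ?_
        ring
    · simp only [Finset.mul_sum]
      rw [Finset.sum_comm]
      refine Finset.sum_congr rfl fun q _ => ?_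
      push_cast
      rw [Finset.mul_sum]
      refine Finset.sum_congr rfl fun j _ => ?_
      ring
  have h7 : ∑ q ∈ Q, β q *
        ((∑ j, wt r s j * (r j - s i)⁻¹ * (r j - s i')⁻¹ * (r j - s q)⁻¹ : ℝ) : ℂ)
      = ∑ q ∈ Q, β q * (((s i - s q)⁻¹
        * ∑ j, wt r s j * (r j - s i)⁻¹ * (r j - s i')⁻¹ : ℝ) : ℂ) :=
    Finset.sum_congr rfl fun q hq => by rw [h5 q hq]
  rw [h4, h7, h3]
  simp only [h1 i i']
  by_cases hi : i = i'
  · subst hi
    rw [if_pos rfl, if_pos rfl]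
    have h6 : ∀ q, β q * (((s i - s q)⁻¹
        * ∑ j, wt r s j * (r j - s i)⁻¹ * (r j - s i)⁻¹ : ℝ) : ℂ)
        = ((∑ j, wt r s j * (r j - s i)⁻¹ * (r j - s i)⁻¹ : ℝ) : ℂ)
          * (β q / ((s i : ℂ) - s q)) := by
      intro q
      push_cast
      ring
    rw [Finset.sum_congr rfl fun q _ => h6 q, ← Finset.mul_sum]
    push_cast
    ring
  · rw [if_neg hi, if_neg hi]
    simp

theorem map_subtype_notMem {m : ℕ} (Q : Finset (Fin m)) (f : Fin m → ℂ) :
    Finset.univ.val.map (fun i : {i // i ∉ Q} => f i) = (Finset.univ \ Q).val.map f := by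
  have h1 : (Finset.univ \ Q) = (Finset.univ : Finset {i // i ∉ Q}).map
      (Function.Embedding.subtype _) := by
    ext i
    simp
  rw [h1, Finset.map_val, Multiset.map_map]
  rfl

theorem realizable_rat {m k n : ℕ} (r : Fin (m + 1) → ℝ) (s : Fin m → ℝ) (h : Alternate r s)
    (Q : Finset (Fin m)) (γ α : ℂ) (β : Fin m → ℂ) (e : Multiset ℂ) (a : Fin k → ℂ)
    (b : Fin n → ℂ)
    (ha : entries a = e + (Finset.univ \ Q).val.map
      (fun i => γ + α * s i + ∑ q ∈ Q, β q / ((s i : ℂ) - s q)))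
    (hb : entries b = e + Finset.univ.val.map
      (fun j => γ + α * r j + ∑ q ∈ Q, β q / ((r j : ℂ) - s q))) :
    Realizable a b := by
  rw [realizable_iff_core]
  obtain ⟨d, hd⟩ := exists_enum e
  have h1 := (core_rat h Q γ α β).sum d
  refine h1.of_map_eq ?_ ?_
  · rw [map_sum_elim, hd]
    rw [map_subtype_notMem Q (fun i => γ + α * s i + ∑ q ∈ Q, β q / ((s i : ℂ) - s q))]
    exact ha
  · rw [map_sum_elim, hd]
    exact hb

end Pool.Agent.Helper41.NC
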