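import Pool.Agent.Helper41.NC.Cauchy

/-!
# The reduction: adapted completion of a compression
-/

namespace Pool.Agent.Helper41.NC

open Matrix Module

/-- The real functional `z ↦ Im (d z)`. -/
def lf (d z : ℂ) : ℝ := (d * z).im

theorem lf_eq (d z : ℂ) :
    (lf d z : ℂ) = (d * z - (starRingEnd ℂ d) * (starRingEnd ℂ z)) / (2 * Complex.I) := by
  rw [lf, ← map_mul, Complex.im_eq_sub_conj]

section
variable {ι κ μ : Type*} [Fintype ι] [Fintype κ] [Fintype μ]
  [DecidableEq ι] [DecidableEq κ] [DecidableEq μ]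

/-- Compression of a real functional. -/
theorem comp_lf {α β : Type*} [Fintype α] [Fintype β] (M : Matrix α κ ℂ) (N : Matrix κ β ℂ)
    (d : ℂ) (b : κ → ℂ) :
    M * diagonal (fun j => (lf d (b j) : ℂ)) * N
      = (2 * Complex.I)⁻¹ • (d • (M * diagonal b * N)
        - (starRingEnd ℂ d) • (M * diagonal (fun j => starRingEnd ℂ (b j)) * N)) := by
  have h1 : diagonal (fun j => (lf d (b j) : ℂ))
      = (2 * Complex.I)⁻¹ • (d • diagonal b
        - (starRingEnd ℂ d) • diagonal (fun j => starRingEnd ℂ (b j))) := by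
    ext i j
    by_cases h : i = j
    · subst h
      simp only [diagonal_apply_eq, Matrix.smul_apply, Matrix.sub_apply, smul_eq_mul]
      rw [lf_eq, div_eq_inv_mul]
    · simp [diagonal_apply_ne _ h]
  rw [h1, Matrix.mul_smul, Matrix.smul_mul, Matrix.mul_sub, Matrix.sub_mul, Matrix.mul_smul,
    Matrix.mul_smul, Matrix.smul_mul, Matrix.smul_mul]

omit [Fintype κ] in
theorem diag_conj (b : κ → ℂ) : diagonal (fun j => starRingEnd ℂ (b j)) = (diagonal b)ᴴ := by
  rw [diagonal_conjTranspose]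
  rfl

/-- A completion of `T` adapted to the eigenvalues. -/
structure Adapted (T : Matrix ι κ ℂ) (a : ι → ℂ) (b : κ → ℂ) (R : Matrix μ κ ℂ)
    (d : μ → ℂ) : Prop where
  hT : T * Tᴴ = 1
  hD : T * diagonal b * Tᴴ = diagonal a
  hR : R * Rᴴ = 1
  hRT : R * Tᴴ = 0
  hTR : T * Rᴴ = 0
  hone : Tᴴ * T + Rᴴ * R = 1
  hd : ∀ s, d s * starRingEnd ℂ (d s) = 1
  hY : ∀ i s, (T * diagonal (fun j => starRingEnd ℂ (b j)) * Rᴴ) i s
    = d s ^ 2 * (T * diagonal b * Rᴴ) i s

theorem exists_adapted (T : Matrix ι κ ℂ) (a : ι → ℂ) (b : κ → ℂ) (hT : T * Tᴴ = 1)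
    (hD : T * diagonal b * Tᴴ = diagonal a)
    (hcard : Fintype.card κ = Fintype.card ι + Fintype.card μ) :
    ∃ (R : Matrix μ κ ℂ) (d : μ → ℂ), Adapted T a b R d := by
  obtain ⟨R, h1, h2, h3, h4⟩ := complete (μ := μ) T hT hcard
  have hD' : T * (diagonal b)ᴴ * Tᴴ = (diagonal a)ᴴ := by
    rw [← hD, conjTranspose_mul, conjTranspose_mul, conjTranspose_conjTranspose, Matrix.mul_assoc]
  have hRR : Rᴴ * R = 1 - Tᴴ * T := eq_sub_of_add_eq' h4
  have hbb : diagonal b * (diagonal b)ᴴ = (diagonal b)ᴴ * diagonal b := by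
    rw [diagonal_conjTranspose, diagonal_mul_diagonal, diagonal_mul_diagonal]
    congr 1; funext i; exact mul_comm _ _
  have haa : diagonal a * (diagonal a)ᴴ = (diagonal a)ᴴ * diagonal a := by
    rw [diagonal_conjTranspose, diagonal_mul_diagonal, diagonal_mul_diagonal]
    congr 1; funext i; exact mul_comm _ _
  have hgram : (T * diagonal b * Rᴴ) * (T * diagonal b * Rᴴ)ᴴ
      = (T * (diagonal b)ᴴ * Rᴴ) * (T * (diagonal b)ᴴ * Rᴴ)ᴴ := by
    rw [conjTranspose_mul, conjTranspose_mul, conjTranspose_conjTranspose,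
      conjTranspose_mul, conjTranspose_mul, conjTranspose_conjTranspose,
      conjTranspose_conjTranspose]
    calc T * diagonal b * Rᴴ * (R * ((diagonal b)ᴴ * Tᴴ))
        = T * diagonal b * (Rᴴ * R) * ((diagonal b)ᴴ * Tᴴ) := by simp only [Matrix.mul_assoc]
      _ = T * (diagonal b * (diagonal b)ᴴ) * Tᴴ
          - (T * diagonal b * Tᴴ) * (T * (diagonal b)ᴴ * Tᴴ) := by
          rw [hRR, Matrix.mul_sub, Matrix.sub_mul, Matrix.mul_one]
          simp only [Matrix.mul_assoc]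
      _ = T * ((diagonal b)ᴴ * diagonal b) * Tᴴ
          - (T * (diagonal b)ᴴ * Tᴴ) * (T * diagonal b * Tᴴ) := by
          rw [hbb, hD, hD', haa]
      _ = T * (diagonal b)ᴴ * (Rᴴ * R) * (diagonal b * Tᴴ) := by
          rw [hRR, Matrix.mul_sub, Matrix.sub_mul, Matrix.mul_one]
          simp only [Matrix.mul_assoc]
      _ = _ := by simp only [Matrix.mul_assoc]
  obtain ⟨W, hW1, hW2, hW3⟩ := gram_unitary _ _ hgram
  obtain ⟨Q, w, hQ1, hQ2, hQ3⟩ := normal_diag W (by rw [hW1, hW2])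
  have hw : ∀ s, w s * starRingEnd ℂ (w s) = 1 := by
    intro s
    have h5 : diagonal w * (diagonal w)ᴴ = 1 := by
      rw [← hQ3, conjTranspose_mul, conjTranspose_mul, conjTranspose_conjTranspose]
      calc Q * W * Qᴴ * (Q * (Wᴴ * Qᴴ)) = Q * (W * (Qᴴ * Q) * Wᴴ) * Qᴴ := by
            simp only [Matrix.mul_assoc]
        _ = 1 := by rw [hQ2, Matrix.mul_one, hW1, Matrix.mul_one, hQ1]
    rw [diagonal_conjTranspose, diagonal_mul_diagonal] at h5
    have h6 := congrFun (congrFun h5 s) s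
    rw [diagonal_apply_eq, one_apply_eq] at h6
    exact h6
  choose d hd' using fun s => IsAlgClosed.exists_pow_nat_eq (w s) (n := 2) (by norm_num)
  have hd : ∀ s, w s = d s ^ 2 := fun s => (hd' s).symm
  refine ⟨Q * R, d, hT, hD, ?_, ?_, ?_, ?_, ?_, ?_⟩
  · rw [conjTranspose_mul]
    calc Q * R * (Rᴴ * Qᴴ) = Q * (R * Rᴴ) * Qᴴ := by simp only [Matrix.mul_assoc]
      _ = 1 := by rw [h1, Matrix.mul_one, hQ1]
  · rw [Matrix.mul_assoc, h2, Matrix.mul_zero]
  · rw [conjTranspose_mul, ← Matrix.mul_assoc, h3, Matrix.zero_mul]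
  · rw [conjTranspose_mul]
    calc Tᴴ * T + Rᴴ * Qᴴ * (Q * R) = Tᴴ * T + Rᴴ * (Qᴴ * Q) * R := by
          simp only [Matrix.mul_assoc]
      _ = 1 := by rw [hQ2, Matrix.mul_one, h4]
  · intro s
    have h7 : (d s * starRingEnd ℂ (d s)) * (d s * starRingEnd ℂ (d s)) = 1 := by
      rw [← hw s, hd s, map_pow]; ring
    rw [Complex.mul_conj] at h7 ⊢
    have h8 : Complex.normSq (d s) * Complex.normSq (d s) = 1 := by exact_mod_cast h7
    have h9 : Complex.normSq (d s) = 1 := by nlinarith [Complex.normSq_nonneg (d s)]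
    rw [h9]; simp
  · intro i s
    have h7 : T * diagonal (fun j => starRingEnd ℂ (b j)) * (Q * R)ᴴ
        = (T * diagonal b * (Q * R)ᴴ) * diagonal w := by
      rw [diag_conj, conjTranspose_mul, ← hQ3]
      calc T * (diagonal b)ᴴ * (Rᴴ * Qᴴ) = (T * (diagonal b)ᴴ * Rᴴ) * Qᴴ := by
            simp only [Matrix.mul_assoc]
        _ = (T * diagonal b * Rᴴ) * (Qᴴ * Q) * W * Qᴴ := by
            rw [hW3, hQ2, Matrix.mul_one]
        _ = _ := by simp only [Matrix.mul_assoc]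
    rw [h7, mul_diagonal, hd s, mul_comm]

end

end Pool.Agent.Helper41.NC
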