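import Pool.Agent.Helper41.NC.Core

/-!
# Sufficiency of the line step and of the hyperbolic step
-/

namespace Pool.Agent.Helper41.NC

open Matrix Module

theorem core_of_weights {ι κ : Type*} [Fintype ι] [Fintype κ] [DecidableEq ι] [DecidableEq κ]
    (D : κ → ℝ) (hD : ∀ j, 0 < D j) (u : ι → κ → ℝ) (N : ι → ℝ) (hN : ∀ i, 0 < N i)
    (a : ι → ℂ) (b : κ → ℂ)
    (h1 : ∀ i i', ∑ j, D j * u i j * u i' j = if i = i' then N i else 0)
    (h2 : ∀ i i', ∑ j, ((D j * u i j * u i' j : ℝ) : ℂ) * b j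
      = if i = i' then (N i : ℂ) * a i else 0) : Core a b := by
  refine ⟨of fun i j => ((Real.sqrt (D j) * u i j / Real.sqrt (N i) : ℝ) : ℂ), ?_, ?_⟩
  · ext i i'
    rw [mul_apply, one_apply]
    have hs : ∀ j, Real.sqrt (D j) * Real.sqrt (D j) = D j := fun j =>
      Real.mul_self_sqrt (hD j).le
    have e1 : ∑ j, (of fun i j => ((Real.sqrt (D j) * u i j / Real.sqrt (N i) : ℝ) : ℂ)) i j *
        ((of fun i j => ((Real.sqrt (D j) * u i j / Real.sqrt (N i) : ℝ) : ℂ))ᴴ) j i'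
        = ((∑ j, D j * u i j * u i' j) / (Real.sqrt (N i) * Real.sqrt (N i')) : ℝ) := by
      rw [Finset.sum_div, Complex.ofReal_sum]
      refine Finset.sum_congr rfl fun j _ => ?_
      simp only [of_apply, conjTranspose_apply, Complex.star_def, Complex.conj_ofReal]
      rw [← Complex.ofReal_mul]
      have : Real.sqrt (D j) * u i j / Real.sqrt (N i) * (Real.sqrt (D j) * u i' j / Real.sqrt (N i'))
          = (Real.sqrt (D j) * Real.sqrt (D j)) * u i j * u i' j /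
            (Real.sqrt (N i) * Real.sqrt (N i')) := by ring
      rw [this, hs]
    rw [e1, h1]
    by_cases h : i = i'
    · subst h
      rw [if_pos rfl, if_pos rfl, Real.mul_self_sqrt (hN i).le, div_self (hN i).ne']
      simp
    · rw [if_neg h, if_neg h]
      simp
  · ext i i'
    rw [mul_apply, diagonal_apply]
    have hs : ∀ j, Real.sqrt (D j) * Real.sqrt (D j) = D j := fun j =>
      Real.mul_self_sqrt (hD j).le
    have e1 : ∑ j, ((of fun i j => ((Real.sqrt (D j) * u i j / Real.sqrt (N i) : ℝ) : ℂ)) *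
          diagonal b) i j *
        ((of fun i j => ((Real.sqrt (D j) * u i j / Real.sqrt (N i) : ℝ) : ℂ))ᴴ) j i'
        = (∑ j, ((D j * u i j * u i' j : ℝ) : ℂ) * b j) /
          ((Real.sqrt (N i) * Real.sqrt (N i') : ℝ) : ℂ) := by
      rw [Finset.sum_div]
      refine Finset.sum_congr rfl fun j _ => ?_
      rw [mul_diagonal]
      simp only [of_apply, conjTranspose_apply, Complex.star_def, Complex.conj_ofReal]
      have : ((D j * u i j * u i' j : ℝ) : ℂ)
          = ((Real.sqrt (D j) * Real.sqrt (D j) * u i j * u i' j : ℝ) : ℂ) := by rw [hs]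
      rw [this]
      push_cast
      ring
    rw [e1, h2]
    by_cases h : i = i'
    · subst h
      rw [if_pos rfl, if_pos rfl, Real.mul_self_sqrt (hN i).le]
      rw [mul_comm, mul_div_assoc, div_self (by exact_mod_cast (hN i).ne'), mul_one]
    · rw [if_neg h, if_neg h]
      simp

section
variable {m : ℕ} {r : Fin (m + 1) → ℝ} {s : Fin m → ℝ}

theorem Alternate.strictMono (h : Alternate r s) : StrictMono r :=
  Fin.strictMono_iff_lt_succ.mpr fun i => (h i).1.trans (h i).2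

theorem Alternate.lt_of_le (h : Alternate r s) {j : Fin (m + 1)} {i : Fin m}
    (hij : j ≤ i.castSucc) : r j < s i :=
  (h.strictMono.monotone hij).trans_lt (h i).1

theorem Alternate.lt_of_lt (h : Alternate r s) {j : Fin (m + 1)} {i : Fin m}
    (hij : i.castSucc < j) : s i < r j :=
  (h i).2.trans_le (h.strictMono.monotone (Fin.castSucc_lt_iff_succ_le.mp hij))

theorem Alternate.ne (h : Alternate r s) (j : Fin (m + 1)) (i : Fin m) : r j ≠ s i := by
  rcases le_or_gt j i.castSucc with h1 | h1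
  · exact (h.lt_of_le h1).ne
  · exact (h.lt_of_lt h1).ne'

theorem Alternate.strictMono' (h : Alternate r s) : StrictMono s := by
  intro i j hij
  exact (h i).2.trans_le ((h.strictMono.monotone
    (Fin.succ_le_castSucc_iff.mpr hij)).trans (h j).1.le)

/-- The weights. -/
noncomputable def wt (r : Fin (m + 1) → ℝ) (s : Fin m → ℝ) (j : Fin (m + 1)) : ℝ :=
  (∏ l, (r j - s l)) / ∏ l ∈ Finset.univ.erase j, (r j - r l)

theorem wt_pos (h : Alternate r s) (j : Fin (m + 1)) : 0 < wt r s j := by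
  have h1 : ∏ l ∈ Finset.univ.erase j, (r j - r l) = ∏ i : Fin m, (r j - r (j.succAbove i)) := by
    have : Finset.univ.erase j = Finset.univ.map (Fin.succAboveEmb j) := by
      rw [Fin.univ_succAbove m j, Finset.erase_cons]
    rw [this, Finset.prod_map]
    rfl
  rw [wt, h1, ← Finset.prod_div_distrib]
  refine Finset.prod_pos fun i _ => ?_
  rcases le_or_gt j i.castSucc with h2 | h2
  · rw [Fin.succAbove_of_le_castSucc _ _ h2]
    have h3 := h.lt_of_le h2
    have h4 := h.strictMono (h2.trans_lt (Fin.castSucc_lt_succ (i := i)))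
    exact div_pos_of_neg_of_neg (by linarith) (by linarith)
  · rw [Fin.succAbove_of_castSucc_lt _ _ h2]
    have h3 := h.lt_of_lt h2
    have h4 := h.strictMono h2
    exact div_pos (by linarith) (by linarith)

theorem wt_sum (h : Alternate r s) (q : Fin m) : ∑ j, wt r s j / (r j - s q) = 0 := by
  classical
  let P : Polynomial ℝ := ∏ l ∈ Finset.univ.erase q, (Polynomial.X - Polynomial.C (s l))
  have hPdeg : P.natDegree = m - 1 := by
    rw [Polynomial.natDegree_prod_of_monic _ _ (fun i _ => Polynomial.monic_X_sub_C _)]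
    simp
  have hm : 0 < m := q.pos
  have hP0 : P ≠ 0 := Finset.prod_ne_zero_iff.mpr fun i _ => Polynomial.X_sub_C_ne_zero _
  have h1 := Lagrange.coeff_eq_sum (s := (Finset.univ : Finset (Fin (m + 1)))) (v := r)
    (h.strictMono.injective.injOn) (P := P) (by
      rw [Polynomial.degree_eq_natDegree hP0, hPdeg, Finset.card_univ, Fintype.card_fin]
      exact_mod_cast (by omega : m - 1 < m + 1))
  rw [Finset.card_univ, Fintype.card_fin, Nat.add_sub_cancel,
    Polynomial.coeff_eq_zero_of_natDegree_lt (by rw [hPdeg]; omega)] at h1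
  rw [h1]
  refine Finset.sum_congr rfl fun j _ => ?_
  have h2 : P.eval (r j) = ∏ l ∈ Finset.univ.erase q, (r j - s l) := by
    rw [Polynomial.eval_prod]
    simp
  rw [h2, wt, ← Finset.mul_prod_erase _ _ (Finset.mem_univ q)]
  have h3 : r j - s q ≠ 0 := sub_ne_zero.mpr (h.ne j q)
  field_simp

end

section
variable {κ : Type*} [Fintype κ] (D ξ : κ → ℝ) (x y : ℝ)

theorem quad_one (hx : ∀ j, ξ j ≠ x) (hy : ∀ j, ξ j ≠ y) (hxy : x ≠ y)
    (h1 : ∑ j, D j / (ξ j - x) = 0) (h2 : ∑ j, D j / (ξ j - y) = 0) :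
    ∑ j, D j * (ξ j - x)⁻¹ * (ξ j - y)⁻¹ = 0 := by
  have : ∑ j, D j * (ξ j - x)⁻¹ * (ξ j - y)⁻¹
      = (∑ j, D j / (ξ j - x) - ∑ j, D j / (ξ j - y)) / (x - y) := by
    rw [← Finset.sum_sub_distrib, Finset.sum_div]
    refine Finset.sum_congr rfl fun j _ => ?_
    have a1 := sub_ne_zero.mpr (hx j)
    have a2 := sub_ne_zero.mpr (hy j)
    have a3 := sub_ne_zero.mpr hxy
    field_simp
    ring
  rw [this, h1, h2]
  simp

theorem quad_id (hx : ∀ j, ξ j ≠ x) (hy : ∀ j, ξ j ≠ y) (h1 : ∑ j, D j / (ξ j - y) = 0) :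
    ∑ j, D j * (ξ j - x)⁻¹ * (ξ j - y)⁻¹ * ξ j = x * ∑ j, D j * (ξ j - x)⁻¹ * (ξ j - y)⁻¹ := by
  have : ∑ j, D j * (ξ j - x)⁻¹ * (ξ j - y)⁻¹ * ξ j
      = x * (∑ j, D j * (ξ j - x)⁻¹ * (ξ j - y)⁻¹) + ∑ j, D j / (ξ j - y) := by
    rw [Finset.mul_sum, ← Finset.sum_add_distrib]
    refine Finset.sum_congr rfl fun j _ => ?_
    have a1 := sub_ne_zero.mpr (hx j)
    have a2 := sub_ne_zero.mpr (hy j)
    field_simp
    ring
  rw [this, h1, add_zero]

theorem quad_inv (hx : ∀ j, ξ j ≠ x) (hy : ∀ j, ξ j ≠ y) (h0 : ∀ j, ξ j ≠ 0) (hx0 : x ≠ 0)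
    (hy0 : y ≠ 0) (h1 : ∑ j, D j / (ξ j - y) = 0) (h2 : ∑ j, D j / ξ j = 0) :
    ∑ j, D j * (ξ j - x)⁻¹ * (ξ j - y)⁻¹ * (ξ j)⁻¹
      = x⁻¹ * ∑ j, D j * (ξ j - x)⁻¹ * (ξ j - y)⁻¹ := by
  have : ∑ j, D j * (ξ j - x)⁻¹ * (ξ j - y)⁻¹ * (ξ j)⁻¹
      = x⁻¹ * (∑ j, D j * (ξ j - x)⁻¹ * (ξ j - y)⁻¹) - (x * y)⁻¹ * (∑ j, D j / (ξ j - y))
        + (x * y)⁻¹ * ∑ j, D j / ξ j := by
    rw [Finset.mul_sum, Finset.mul_sum, Finset.mul_sum, ← Finset.sum_sub_distrib,
      ← Finset.sum_add_distrib]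
    refine Finset.sum_congr rfl fun j _ => ?_
    have a1 := sub_ne_zero.mpr (hx j)
    have a2 := sub_ne_zero.mpr (hy j)
    have a3 := h0 j
    field_simp
    ring
  rw [this, h1, h2]
  ring

end

theorem norm_pos {m : ℕ} {r : Fin (m + 1) → ℝ} {s : Fin m → ℝ} (h : Alternate r s) (i : Fin m) :
    0 < ∑ j, wt r s j * (r j - s i)⁻¹ * (r j - s i)⁻¹ := by
  refine Finset.sum_pos (fun j _ => ?_) Finset.univ_nonempty
  have h1 := sub_ne_zero.mpr (h.ne j i)
  rw [mul_assoc]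
  exact mul_pos (wt_pos h j) (mul_self_pos.mpr (inv_ne_zero h1))

theorem core_line {m : ℕ} {r : Fin (m + 1) → ℝ} {s : Fin m → ℝ} (h : Alternate r s) (γ α : ℂ) :
    Core (fun i => γ + α * s i) (fun j => γ + α * r j) := by
  have h1 : ∀ i i' : Fin m, ∑ j, wt r s j * (r j - s i)⁻¹ * (r j - s i')⁻¹
      = if i = i' then ∑ j, wt r s j * (r j - s i)⁻¹ * (r j - s i)⁻¹ else 0 := by
    intro i i'
    by_cases hi : i = i'
    · subst hi; rw [if_pos rfl]
    · rw [if_neg hi]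
      exact quad_one _ _ _ _ (fun j => h.ne j i) (fun j => h.ne j i')
        (fun e => hi (h.strictMono'.injective e)) (wt_sum h i) (wt_sum h i')
  refine core_of_weights (wt r s) (wt_pos h) (fun i j => (r j - s i)⁻¹)
    (fun i => ∑ j, wt r s j * (r j - s i)⁻¹ * (r j - s i)⁻¹) (norm_pos h) _ _ h1 ?_
  intro i i'
  have h3 := quad_id (wt r s) r (s i) (s i') (fun j => h.ne j i) (fun j => h.ne j i') (wt_sum h i')
  have h4 : ∑ j, ((wt r s j * (r j - s i)⁻¹ * (r j - s i')⁻¹ : ℝ) : ℂ) * (γ + α * r j)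
      = γ * ((∑ j, wt r s j * (r j - s i)⁻¹ * (r j - s i')⁻¹ : ℝ) : ℂ)
        + α * ((∑ j, wt r s j * (r j - s i)⁻¹ * (r j - s i')⁻¹ * r j : ℝ) : ℂ) := by
    push_cast
    rw [Finset.mul_sum, Finset.mul_sum, ← Finset.sum_add_distrib]
    refine Finset.sum_congr rfl fun j _ => ?_
    ring
  rw [h4, h3, h1 i i']
  by_cases hi : i = i'
  · subst hi
    rw [if_pos rfl, if_pos rfl]
    push_cast
    ring
  · rw [if_neg hi, if_neg hi]
    simp

theorem core_hyp {m : ℕ} {r : Fin (m + 2) → ℝ} {s : Fin (m + 1) → ℝ} (h : Alternate r s)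
    (p : Fin (m + 1)) (hp : s p = 0) (γ α β : ℂ) :
    Core (fun i : {i // i ≠ p} => γ + α * s i + β / s i) (fun j => γ + α * r j + β / r j) := by
  have h1 : ∀ i i' : {i // i ≠ p}, ∑ j, wt r s j * (r j - s i)⁻¹ * (r j - s i')⁻¹
      = if i = i' then ∑ j, wt r s j * (r j - s i)⁻¹ * (r j - s i)⁻¹ else 0 := by
    intro i i'
    by_cases hi : i = i'
    · subst hi; rw [if_pos rfl]
    · rw [if_neg hi]
      exact quad_one _ _ _ _ (fun j => h.ne j i) (fun j => h.ne j i')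
        (fun e => hi (Subtype.ext (h.strictMono'.injective e))) (wt_sum h i) (wt_sum h i')
  refine core_of_weights (wt r s) (wt_pos h) (fun (i : {i // i ≠ p}) j => (r j - s i)⁻¹)
    (fun i => ∑ j, wt r s j * (r j - s i)⁻¹ * (r j - s i)⁻¹) (fun i => norm_pos h i) _ _ h1 ?_
  intro i i'
  have h0 : ∀ j, r j ≠ 0 := fun j => by rw [← hp]; exact h.ne j p
  have hs0 : ∀ i : {i // i ≠ p}, s i ≠ 0 := fun i => by
    rw [← hp]; exact fun e => i.2 (h.strictMono'.injective e)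
  have hw0 : ∑ j, wt r s j / r j = 0 := by
    have := wt_sum h p
    rw [hp] at this
    simpa using this
  have h3 := quad_id (wt r s) r (s i) (s i') (fun j => h.ne j i) (fun j => h.ne j i') (wt_sum h i')
  have h5 := quad_inv (wt r s) r (s i) (s i') (fun j => h.ne j i) (fun j => h.ne j i') h0
    (hs0 i) (hs0 i') (wt_sum h i') hw0
  have h4 : ∑ j, ((wt r s j * (r j - s i)⁻¹ * (r j - s i')⁻¹ : ℝ) : ℂ) * (γ + α * r j + β / r j)
      = γ * ((∑ j, wt r s j * (r j - s i)⁻¹ * (r j - s i')⁻¹ : ℝ) : ℂ)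
        + α * ((∑ j, wt r s j * (r j - s i)⁻¹ * (r j - s i')⁻¹ * r j : ℝ) : ℂ)
        + β * ((∑ j, wt r s j * (r j - s i)⁻¹ * (r j - s i')⁻¹ * (r j)⁻¹ : ℝ) : ℂ) := by
    push_cast
    rw [Finset.mul_sum, Finset.mul_sum, Finset.mul_sum, ← Finset.sum_add_distrib,
      ← Finset.sum_add_distrib]
    refine Finset.sum_congr rfl fun j _ => ?_
    ring
  rw [h4, h3, h5, h1 i i']
  by_cases hi : i = i'
  · subst hi
    rw [if_pos rfl, if_pos rfl]
    push_cast
    ring
  · rw [if_neg hi, if_neg hi]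
    simp

end Pool.Agent.Helper41.NC
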