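import Pool.Agent.Helper41.NC.Nec

/-!
# Necessity in codimension two
-/

namespace Pool.Agent.Helper41.NC

open Matrix Module

section
variable {ι κ μ : Type*} [Fintype ι] [Fintype κ] [Fintype μ]
  [DecidableEq ι] [DecidableEq κ] [DecidableEq μ]
  {T : Matrix ι κ ℂ} {a : ι → ℂ} {b : κ → ℂ} {R : Matrix μ κ ℂ} {d : μ → ℂ}

theorem conjT_real (M : Matrix μ κ ℂ) (N : Matrix κ ι ℂ) (f : κ → ℝ) :
    (M * diagonal (fun j => (f j : ℂ)) * N)ᴴ = Nᴴ * diagonal (fun j => (f j : ℂ)) * Mᴴ := by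
  rw [conjTranspose_mul, conjTranspose_mul, diagonal_conjTranspose, ← Matrix.mul_assoc]
  congr 3
  funext j
  simp only [Pi.star_apply, Complex.star_def, Complex.conj_ofReal]

/-- If the intermediate condition holds at `s`, there is an intermediate normal compression. -/
theorem Adapted.inter (H : Adapted T a b R d) (s : μ)
    (hx : ∀ i, ((lf (d s) (a i) : ℂ) - (R * diagonal (fun j => (lf (d s) (b j) : ℂ)) * Rᴴ) s s)
      * (T * diagonal b * Rᴴ) i s = 0) :
    ∃ c : ι ⊕ Unit → ℂ, Core a c ∧ Core c b := by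
  obtain ⟨ρ, hρ⟩ : ∃ ρ : Matrix Unit κ ℂ, ρ = R.submatrix (fun _ => s) id := ⟨_, rfl⟩
  have e1 : ∀ G : κ → ℂ, ∀ i, (T * diagonal G * ρᴴ) i () = (T * diagonal G * Rᴴ) i s := by
    intro G i
    rw [mul_apply, mul_apply]
    refine Finset.sum_congr rfl fun j _ => ?_
    rw [hρ]; rfl
  have e2 : ∀ G : κ → ℂ, (ρ * diagonal G * ρᴴ) () () = (R * diagonal G * Rᴴ) s s := by
    intro G
    rw [mul_apply, mul_apply]
    refine Finset.sum_congr rfl fun j _ => ?_
    rw [mul_diagonal, mul_diagonal, hρ]; rfl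
  have e3 : ∀ G : κ → ℂ, ∀ i, (ρ * diagonal G * Tᴴ) () i = (R * diagonal G * Tᴴ) s i := by
    intro G i
    rw [mul_apply, mul_apply]
    refine Finset.sum_congr rfl fun j _ => ?_
    rw [mul_diagonal, mul_diagonal, hρ]; rfl
  have hd0 : d s ≠ 0 := by
    intro h0
    have := H.hd s
    rw [h0] at this
    simp at this
  apply intermediate H.hT H.hD ρ ?_ ?_ ?_ (d s) hd0 (fun i => (lf (d s) (a i) : ℂ))
    ((R * diagonal (fun j => (lf (d s) (b j) : ℂ)) * Rᴴ) s s) (H.comp (d s)) ?_ (e2 _) ?_ ?_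
  · ext u v
    have := congrFun (congrFun H.hR s) s
    rw [mul_apply, one_apply_eq] at this
    rw [mul_apply, show u = v from rfl, one_apply_eq, ← this]
    refine Finset.sum_congr rfl fun j _ => ?_
    rw [hρ]; rfl
  · ext u v
    have := congrFun (congrFun H.hRT s) v
    rw [mul_apply] at this
    rw [mul_apply, Matrix.zero_apply]
    refine Eq.trans ?_ this
    refine Finset.sum_congr rfl fun j _ => ?_
    rw [hρ]; rfl
  · ext u v
    have := congrFun (congrFun H.hTR u) s
    rw [mul_apply] at this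
    rw [mul_apply, Matrix.zero_apply]
    refine Eq.trans ?_ this
    refine Finset.sum_congr rfl fun j _ => ?_
    rw [hρ]; rfl
  · ext i u
    rw [show u = () from rfl, e1, H.off_self, Matrix.zero_apply]
  · intro i
    rw [e1]; exact hx i
  · intro i
    rw [e3]
    rcases mul_eq_zero.mp (hx i) with h1 | h1
    · rw [h1, zero_mul]
    · have h2 : (R * diagonal b * Tᴴ) s i
          = starRingEnd ℂ ((T * diagonal (fun j => starRingEnd ℂ (b j)) * Rᴴ) i s) := by
        have h3 : R * diagonal b * Tᴴ = (T * diagonal (fun j => starRingEnd ℂ (b j)) * Rᴴ)ᴴ := by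
          rw [diag_conj, conjTranspose_mul, conjTranspose_mul, conjTranspose_conjTranspose,
            conjTranspose_conjTranspose, Matrix.mul_assoc]
        rw [h3, conjTranspose_apply]; rfl
      rw [h2, H.hY, h1]
      simp

end

section
variable {ι κ : Type*} [Fintype ι] [Fintype κ] [DecidableEq ι] [DecidableEq κ]
  {T : Matrix ι κ ℂ} {a : ι → ℂ} {b : κ → ℂ}

/-- Equal directions: rotate the completion. -/
theorem Adapted.equal_dir {R : Matrix (Fin 2) κ ℂ} {d : Fin 2 → ℂ} (H : Adapted T a b R d)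
    (hS : d 0 ^ 2 = d 1 ^ 2) : ∃ c : ι ⊕ Unit → ℂ, Core a c ∧ Core c b := by
  have hall : ∀ s : Fin 2, d s ^ 2 = d 0 ^ 2 := by
    intro s
    fin_cases s
    · rfl
    · exact hS.symm
  obtain ⟨P, hP⟩ : ∃ P, P = R * diagonal (fun j => (lf (d 0) (b j) : ℂ)) * Rᴴ := ⟨_, rfl⟩
  have hPh : Pᴴ = P := by rw [hP, conjT_real, conjTranspose_conjTranspose]
  obtain ⟨Q, c, hQ1, hQ2, hQ3⟩ := normal_diag P (by rw [hPh])
  have H' : Adapted T a b (Q * R) (fun _ : Fin 2 => d 0) := by
    refine ⟨H.hT, H.hD, ?_, ?_, ?_, ?_, fun _ => H.hd 0, ?_⟩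
    · rw [conjTranspose_mul]
      calc Q * R * (Rᴴ * Qᴴ) = Q * (R * Rᴴ) * Qᴴ := by simp only [Matrix.mul_assoc]
        _ = 1 := by rw [H.hR, Matrix.mul_one, hQ1]
    · rw [Matrix.mul_assoc, H.hRT, Matrix.mul_zero]
    · rw [conjTranspose_mul, ← Matrix.mul_assoc, H.hTR, Matrix.zero_mul]
    · rw [conjTranspose_mul]
      calc Tᴴ * T + Rᴴ * Qᴴ * (Q * R) = Tᴴ * T + Rᴴ * (Qᴴ * Q) * R := by
            simp only [Matrix.mul_assoc]
        _ = 1 := by rw [hQ2, Matrix.mul_one, H.hone]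
    · intro i s
      rw [conjTranspose_mul, ← Matrix.mul_assoc, ← Matrix.mul_assoc, mul_apply, mul_apply,
        Finset.mul_sum]
      refine Finset.sum_congr rfl fun t _ => ?_
      rw [H.hY, hall t]
      ring
  apply H'.inter 0
  intro i
  have h1 := H'.commute (fun j => (lf (d 0) (b j) : ℂ)) b (fun i => (lf (d 0) (a i) : ℂ)) a
    (H'.comp (d 0)) H'.hD i 0
  have h2 : ∀ s, (T * diagonal (fun j => (lf (d 0) (b j) : ℂ)) * (Q * R)ᴴ) i s = 0 :=
    fun s => H'.off_self i s
  have h3 : Q * R * diagonal (fun j => (lf (d 0) (b j) : ℂ)) * (Q * R)ᴴ = diagonal c := by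
    rw [← hQ3, hP, conjTranspose_mul]
    simp only [Matrix.mul_assoc]
  rw [h3] at h1 ⊢
  rw [Finset.sum_eq_zero (fun t _ => by rw [h2 t, zero_mul]), h2 0, mul_zero, add_zero,
    zero_add, Fin.sum_univ_two, diagonal_apply_eq, diagonal_apply_ne _ (by decide), mul_zero,
    add_zero] at h1
  rw [diagonal_apply_eq, sub_mul, h1]
  ring

theorem hyp_case {R : Matrix (Fin 2) κ ℂ} {d : Fin 2 → ℂ} (H : Adapted T a b R d)
    (hcard : Fintype.card κ = Fintype.card ι + 2)
    (σ : ℝ) (hσ : σ = (d 0 * starRingEnd ℂ (d 1)).im) (hσ0 : σ ≠ 0)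
    (P Q : Matrix (Fin 2) (Fin 2) ℂ)
    (hP : P = R * diagonal (fun j => (lf (d 0) (b j) : ℂ)) * Rᴴ)
    (hQ : Q = R * diagonal (fun j => (lf (d 1) (b j) : ℂ)) * Rᴴ)
    (h01 : P 0 1 ≠ 0) (h10 : Q 1 0 ≠ 0) :
    HypStep (Finset.univ.val.map a) (Finset.univ.val.map b) := by
  classical
  obtain ⟨p, hp⟩ : ∃ p : ℝ, P 0 0 = (p : ℂ) := by
    have h1 : Pᴴ = P := by rw [hP, conjT_real, conjTranspose_conjTranspose]
    have h2 := congrFun (congrFun h1 0) 0
    rw [conjTranspose_apply] at h2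
    exact ⟨(P 0 0).re, (Complex.conj_eq_iff_re.mp h2).symm⟩
  obtain ⟨q, hq⟩ : ∃ q : ℝ, Q 1 1 = (q : ℂ) := by
    have h1 : Qᴴ = Q := by rw [hQ, conjT_real, conjTranspose_conjTranspose]
    have h2 := congrFun (congrFun h1 1) 1
    rw [conjTranspose_apply] at h2
    exact ⟨(Q 1 1).re, (Complex.conj_eq_iff_re.mp h2).symm⟩
  obtain ⟨α, hα⟩ : ∃ α : ι → ℂ,
      α = fun i => (T * diagonal (fun j => (lf (d 1) (b j) : ℂ)) * Rᴴ) i 0 := ⟨_, rfl⟩
  obtain ⟨β, hβ⟩ : ∃ β : ι → ℂ,
      β = fun i => (T * diagonal (fun j => (lf (d 0) (b j) : ℂ)) * Rᴴ) i 1 := ⟨_, rfl⟩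
  have hT00 : ∀ i, (T * diagonal (fun j => (lf (d 0) (b j) : ℂ)) * Rᴴ) i 0 = 0 :=
    fun i => H.off_self i 0
  have hT11 : ∀ i, (T * diagonal (fun j => (lf (d 1) (b j) : ℂ)) * Rᴴ) i 1 = 0 :=
    fun i => H.off_self i 1
  have hR00 : ∀ i, (R * diagonal (fun j => (lf (d 0) (b j) : ℂ)) * Tᴴ) 0 i = 0 := by
    intro i
    have h1 := conjT_real T Rᴴ (fun j => lf (d 0) (b j))
    rw [conjTranspose_conjTranspose] at h1
    rw [← h1, conjTranspose_apply, hT00 i, star_zero]
  have hR11 : ∀ i, (R * diagonal (fun j => (lf (d 1) (b j) : ℂ)) * Tᴴ) 1 i = 0 := by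
    intro i
    have h1 := conjT_real T Rᴴ (fun j => lf (d 1) (b j))
    rw [conjTranspose_conjTranspose] at h1
    rw [← h1, conjTranspose_apply, hT11 i, star_zero]
  -- the relations for the points of `b`
  have hB0 : ∀ j, R 0 j * (lf (d 0) (b j) : ℂ) = p * R 0 j + P 0 1 * R 1 j := by
    intro j
    have h1 := congrFun (congrFun (H.expand R (fun j => (lf (d 0) (b j) : ℂ))) 0) j
    rw [mul_diagonal, Matrix.add_apply, mul_apply, mul_apply,
      Finset.sum_eq_zero (fun i _ => by rw [hR00 i, zero_mul]), zero_add, ← hP,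
      Fin.sum_univ_two, hp] at h1
    exact h1
  have hB1 : ∀ j, R 1 j * (lf (d 1) (b j) : ℂ) = Q 1 0 * R 0 j + q * R 1 j := by
    intro j
    have h1 := congrFun (congrFun (H.expand R (fun j => (lf (d 1) (b j) : ℂ))) 1) j
    rw [mul_diagonal, Matrix.add_apply, mul_apply, mul_apply,
      Finset.sum_eq_zero (fun i _ => by rw [hR11 i, zero_mul]), zero_add, ← hQ,
      Fin.sum_univ_two, hq] at h1
    exact h1
  -- the relations for the points of `a`
  have hA0 : ∀ i, ((lf (d 0) (a i) : ℂ) - p) * α i = - β i * Q 1 0 := by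
    intro i
    have h1 := H.commute (fun j => (lf (d 0) (b j) : ℂ)) (fun j => (lf (d 1) (b j) : ℂ))
      (fun i => (lf (d 0) (a i) : ℂ)) (fun i => (lf (d 1) (a i) : ℂ)) (H.comp (d 0)) (H.comp (d 1))
      i 0
    rw [Fin.sum_univ_two, Fin.sum_univ_two, hT00 i, hT11 i, ← hP, ← hQ, hp] at h1
    rw [hα, hβ]
    linear_combination h1
  have hA1 : ∀ i, ((lf (d 1) (a i) : ℂ) - q) * β i = - α i * P 0 1 := by
    intro i
    have h1 := H.commute (fun j => (lf (d 0) (b j) : ℂ)) (fun j => (lf (d 1) (b j) : ℂ))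
      (fun i => (lf (d 0) (a i) : ℂ)) (fun i => (lf (d 1) (a i) : ℂ)) (H.comp (d 0)) (H.comp (d 1))
      i 1
    rw [Fin.sum_univ_two, Fin.sum_univ_two, hT00 i, hT11 i, ← hP, ← hQ, hq] at h1
    rw [hα, hβ]
    linear_combination -h1
  -- points on the hyperbola
  have hBh : ∀ j, (∃ s, R s j ≠ 0) →
      ((lf (d 0) (b j) : ℂ) - p) * ((lf (d 1) (b j) : ℂ) - q) = P 0 1 * Q 1 0 := by
    rintro j ⟨s, hs⟩
    have h0 := hB0 j
    have h1 := hB1 j
    fin_cases s
    · apply mul_right_cancel₀ (b := R 0 j) hs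
      linear_combination ((lf (d 1) (b j) : ℂ) - q) * h0 + P 0 1 * h1
    · apply mul_right_cancel₀ (b := R 1 j) hs
      linear_combination ((lf (d 0) (b j) : ℂ) - p) * h1 + Q 1 0 * h0
  have hAh : ∀ i, (∃ s, (T * diagonal b * Rᴴ) i s ≠ 0) →
      ((lf (d 0) (a i) : ℂ) - p) * ((lf (d 1) (a i) : ℂ) - q) = P 0 1 * Q 1 0 := by
    rintro i ⟨s, hs⟩
    have h0 := hA0 i
    have h1 := hA1 i
    have hσ' : (σ : ℂ) ≠ 0 := by exact_mod_cast hσ0
    have hσe : (σ : ℂ) = (d 0 * starRingEnd ℂ (d 1) - starRingEnd ℂ (d 0) * d 1)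
        / (2 * Complex.I) := by
      rw [hσ, Complex.im_eq_sub_conj]
      simp
    have hnum : d 0 * starRingEnd ℂ (d 1) - starRingEnd ℂ (d 0) * d 1 ≠ 0 := by
      intro h
      rw [h, zero_div] at hσe
      exact hσ' hσe
    have hd0 : ∀ s, d s ≠ 0 := by
      intro s h0
      have := H.hd s
      rw [h0] at this
      simp at this
    have h2I : (2 * Complex.I)⁻¹ ≠ 0 := inv_ne_zero (by simp)
    fin_cases s
    · have hαi : α i ≠ 0 := by
        rw [hα]
        simp only
        rw [H.off]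
        refine mul_ne_zero (mul_ne_zero h2I ?_) hs
        intro h
        apply hnum
        have h3 := H.hd 0
        apply mul_left_cancel₀ (hd0 0)
        linear_combination -h + d 1 * (-h3)
      apply mul_right_cancel₀ (b := α i) hαi
      linear_combination ((lf (d 1) (a i) : ℂ) - q) * h0 - Q 1 0 * h1
    · have hβi : β i ≠ 0 := by
        rw [hβ]
        simp only
        rw [H.off]
        refine mul_ne_zero (mul_ne_zero h2I ?_) hs
        intro h
        apply hnum
        have h3 := H.hd 1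
        apply mul_left_cancel₀ (hd0 1)
        linear_combination h + d 0 * h3
      apply mul_right_cancel₀ (b := β i) hβi
      linear_combination ((lf (d 0) (a i) : ℂ) - p) * h1 - P 0 1 * h0
  obtain ⟨A, hA⟩ : ∃ A, A = Finset.univ.val.map a := ⟨_, rfl⟩
  obtain ⟨B, hB⟩ : ∃ B, B = Finset.univ.val.map b := ⟨_, rfl⟩
  have hAm : ∀ l ∈ A - B, ((lf (d 0) l : ℂ) - p) * ((lf (d 1) l : ℂ) - q) = P 0 1 * Q 1 0 := by
    intro l hl
    rw [mem_sub_iff, hA, hB, count_entries, count_entries] at hl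
    obtain ⟨i, rfl, hs⟩ := H.supp_a l hl
    exact hAh i hs
  have hBm : ∀ l ∈ B - A, ((lf (d 0) l : ℂ) - p) * ((lf (d 1) l : ℂ) - q) = P 0 1 * Q 1 0 := by
    intro l hl
    rw [mem_sub_iff, hA, hB, count_entries, count_entries] at hl
    obtain ⟨j, rfl, hs⟩ := H.supp_b l hl
    exact hBh j hs
  have hcardA : A.card = Fintype.card ι := by rw [hA]; exact card_entries a
  have hcardB : B.card = Fintype.card κ := by rw [hB]; exact card_entries b
  have hsub : (B - A).card = (A - B).card + 2 := by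
    have e1 := congrArg Multiset.card (Multiset.sub_add_inter A B)
    have e2 := congrArg Multiset.card (Multiset.sub_add_inter B A)
    rw [Multiset.card_add] at e1 e2
    rw [Multiset.inter_comm] at e2
    omega
  obtain ⟨h, hh⟩ : ∃ h : ℝ, P 0 1 * Q 1 0 = (h : ℂ) := by
    obtain ⟨l, hl⟩ := Multiset.card_pos_iff_exists_mem.mp (by omega : 0 < (B - A).card)
    refine ⟨(lf (d 0) l - p) * (lf (d 1) l - q), ?_⟩
    rw [← hBm l hl]
    push_cast
    rfl
  have hh0 : (h : ℂ) ≠ 0 := by rw [← hh]; exact mul_ne_zero h01 h10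
  have hσ' : (σ : ℂ) ≠ 0 := by exact_mod_cast hσ0
  -- reconstruction of a point from its parameter
  obtain ⟨z, hz⟩ : ∃ z : ℝ → ℂ, z = fun x =>
      (starRingEnd ℂ (d 1) * p - starRingEnd ℂ (d 0) * q) / σ
      + starRingEnd ℂ (d 1) / σ * ((x - p : ℝ) : ℂ)
      + (- starRingEnd ℂ (d 0) * h / σ) / ((x - p : ℝ) : ℂ) := ⟨_, rfl⟩
  have hrec : ∀ l : ℂ, ((lf (d 0) l : ℂ) - p) * ((lf (d 1) l : ℂ) - q) = P 0 1 * Q 1 0 →
      z (lf (d 0) l) = l := by
    intro l hl
    rw [hh] at hl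
    have hne : ((lf (d 0) l : ℂ) - p) ≠ 0 := by
      intro h0
      rw [h0, zero_mul] at hl
      exact hh0 hl.symm
    have h1 : (lf (d 1) l : ℂ) = q + h / ((lf (d 0) l : ℂ) - p) := by
      rw [← hl]
      field_simp
      ring
    have h2 : (σ : ℂ) * l = starRingEnd ℂ (d 1) * (lf (d 0) l : ℂ)
        - starRingEnd ℂ (d 0) * (lf (d 1) l : ℂ) := by
      rw [lf_eq, lf_eq, hσ, Complex.im_eq_sub_conj]
      simp only [map_mul, Complex.conj_conj]
      field_simp
      ring
    rw [hz]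
    push_cast
    apply mul_left_cancel₀ hσ'
    rw [h2, h1]
    field_simp
    ring
  -- interlacing
  have hC : CInt (B.map (lf (d 0))) ({p} + A.map (lf (d 0))) := by
    obtain ⟨ρ, hρ⟩ : ∃ ρ : Matrix Unit κ ℂ, ρ = R.submatrix (fun _ => 0) id := ⟨_, rfl⟩
    have e1 : ∀ G : κ → ℂ, ∀ i, (T * diagonal G * ρᴴ) i () = (T * diagonal G * Rᴴ) i 0 := by
      intro G i
      rw [mul_apply, mul_apply]
      refine Finset.sum_congr rfl fun j _ => ?_
      rw [hρ]; rfl
    have e2 : ∀ G : κ → ℂ, (ρ * diagonal G * ρᴴ) () () = (R * diagonal G * Rᴴ) 0 0 := by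
      intro G
      rw [mul_apply, mul_apply]
      refine Finset.sum_congr rfl fun j _ => ?_
      rw [mul_diagonal, mul_diagonal, hρ]; rfl
    have e3 : ∀ G : κ → ℂ, ∀ i, (ρ * diagonal G * Tᴴ) () i = (R * diagonal G * Tᴴ) 0 i := by
      intro G i
      rw [mul_apply, mul_apply]
      refine Finset.sum_congr rfl fun j _ => ?_
      rw [mul_diagonal, mul_diagonal, hρ]; rfl
    have f1 : T * ρᴴ = 0 := by
      ext u v
      have := congrFun (congrFun H.hTR u) 0
      rw [mul_apply] at this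
      rw [mul_apply, Matrix.zero_apply]
      refine Eq.trans ?_ this
      refine Finset.sum_congr rfl fun j _ => ?_
      rw [hρ]; rfl
    have f2 : ρ * Tᴴ = 0 := by
      ext u v
      have := congrFun (congrFun H.hRT 0) v
      rw [mul_apply] at this
      rw [mul_apply, Matrix.zero_apply]
      refine Eq.trans ?_ this
      refine Finset.sum_congr rfl fun j _ => ?_
      rw [hρ]; rfl
    have f3 : ρ * ρᴴ = 1 := by
      ext u v
      have := congrFun (congrFun H.hR 0) 0
      rw [mul_apply, one_apply_eq] at this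
      rw [mul_apply, show u = v from rfl, one_apply_eq, ← this]
      refine Finset.sum_congr rfl fun j _ => ?_
      rw [hρ]; rfl
    have g1 : fromRows T ρ * (fromRows T ρ)ᴴ = 1 := by
      rw [conjTranspose_fromRows_eq_fromCols_conjTranspose, fromRows_mul_fromCols, H.hT, f3, f2,
        f1, fromBlocks_one]
    have g2 : fromRows T ρ * diagonal (fun j => (lf (d 0) (b j) : ℂ)) * (fromRows T ρ)ᴴ
        = diagonal (fun x => ((Sum.elim (fun i => lf (d 0) (a i)) (fun _ => p) x : ℝ) : ℂ)) := by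
      have g3 : (fun x : ι ⊕ Unit =>
          ((Sum.elim (fun i => lf (d 0) (a i)) (fun _ => p) x : ℝ) : ℂ))
          = Sum.elim (fun i => (lf (d 0) (a i) : ℂ)) (fun _ => (p : ℂ)) := by
        funext x
        cases x <;> rfl
      rw [conjTranspose_fromRows_eq_fromCols_conjTranspose, fromRows_mul,
        fromRows_mul_fromCols, H.comp, g3, ← fromBlocks_diagonal]
      congr 1
      · ext i u
        rw [show u = () from rfl, e1, hT00 i, Matrix.zero_apply]
      · ext u i
        rw [show u = () from rfl, e3, hR00 i, Matrix.zero_apply]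
      · ext u v
        rw [show u = () from rfl, show v = () from rfl, e2, ← hP, hp, diagonal_apply_eq]
    have h1 := cint_of_matrix (by rw [Fintype.card_sum, hcard]; rfl) (fromRows T ρ) g1
      (fun j => lf (d 0) (b j)) (Sum.elim (fun i => lf (d 0) (a i)) (fun _ => p)) g2
    rw [hA, hB, Multiset.map_map, Multiset.map_map]
    have h2 : Finset.univ.val.map (Sum.elim (fun i => lf (d 0) (a i)) (fun _ : Unit => p))
        = {p} + Finset.univ.val.map (lf (d 0) ∘ a) := by
      rw [← Finset.univ_disjSum_univ, Finset.val_disjSum, Multiset.disjSum, Multiset.map_add,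
        Multiset.map_map, Multiset.map_map, add_comm]
      rfl
    rw [h2] at h1
    exact h1
  obtain ⟨r, s, hrs, hr, hs⟩ := assemble A B (lf (d 0)) {p} z ((A - B).card + 1)
    (by rw [hcardA, hcardB, hcard]; rfl) (by simp [add_comm]) hC
    (fun l hl => hrec l (hAm l hl)) (fun l hl => hrec l (hBm l hl)) (by
      intro l hl hlp
      rw [Multiset.mem_singleton] at hlp
      have h1 := hBm l hl
      rw [hlp, sub_self, zero_mul, hh] at h1
      exact hh0 h1.symm)
  have hpmem : p ∈ Finset.univ.val.map s := by rw [hs]; simp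
  rw [Multiset.mem_map] at hpmem
  obtain ⟨p0, -, hp0⟩ := hpmem
  have hs' : (Finset.univ.erase p0).val.map s = (A - B).map (lf (d 0)) := by
    have h1 : (Finset.univ : Finset (Fin ((A - B).card + 1))).val
        = p0 ::ₘ (Finset.univ.erase p0).val := by
      rw [Finset.erase_val, Multiset.cons_erase (Finset.mem_univ p0)]
    rw [h1, Multiset.map_cons, hp0, Multiset.singleton_add] at hs
    exact (Multiset.cons_inj_right p).mp hs
  refine ⟨(A - B).card, fun j => r j - p, fun i => s i - p, p0, A ∩ B,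
    (starRingEnd ℂ (d 1) * p - starRingEnd ℂ (d 0) * q) / σ, starRingEnd ℂ (d 1) / σ,
    - starRingEnd ℂ (d 0) * h / σ, ?_, ?_, ?_, ?_⟩
  · intro i
    have := hrs i
    constructor <;> simp only [sub_lt_sub_iff_right]
    · exact this.1
    · exact this.2
  · simp only [hp0, sub_self]
  · have e1 : (Finset.univ.erase p0).val.map (fun i => z (s i)) = A - B := by
      have e2 := congrArg (Multiset.map z) hs'
      rw [Multiset.map_map, Multiset.map_map] at e2
      refine Eq.trans e2 ?_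
      refine Eq.trans (Multiset.map_congr rfl fun l hl => ?_) (Multiset.map_id (A - B))
      exact hrec l (hAm l hl)
    rw [hz] at e1
    rw [e1, ← hA, add_comm, Multiset.sub_add_inter]
  · have e1 : Finset.univ.val.map (fun i => z (r i)) = B - A := by
      have e2 := congrArg (Multiset.map z) hr
      rw [Multiset.map_map, Multiset.map_map] at e2
      refine Eq.trans e2 ?_
      refine Eq.trans (Multiset.map_congr rfl fun l hl => ?_) (Multiset.map_id (B - A))
      exact hrec l (hBm l hl)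
    rw [hz] at e1
    rw [e1, ← hB, add_comm, Multiset.inter_comm, Multiset.sub_add_inter]

theorem nec_two (a : ι → ℂ) (b : κ → ℂ) (hcard : Fintype.card κ = Fintype.card ι + 2)
    (h : Core a b) : (∃ c : ι ⊕ Unit → ℂ, Core a c ∧ Core c b) ∨
      HypStep (Finset.univ.val.map a) (Finset.univ.val.map b) := by
  obtain ⟨T, hT, hD⟩ := h
  obtain ⟨R, d, H⟩ := exists_adapted (μ := Fin 2) T a b hT hD (by rw [hcard]; rfl)
  have hd0 : ∀ s, d s ≠ 0 := by
    intro s h0
    have := H.hd s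
    rw [h0] at this
    simp at this
  by_cases hσ : (d 0 * starRingEnd ℂ (d 1)).im = 0
  · left
    apply H.equal_dir
    have h1 := Complex.conj_eq_iff_im.mpr hσ
    rw [map_mul, Complex.conj_conj] at h1
    have e0 := H.hd 0
    have e1 := H.hd 1
    linear_combination (d 0 * d 1) * (-h1) - d 0 ^ 2 * e1 + d 1 ^ 2 * e0
  · obtain ⟨P, hP⟩ : ∃ P, P = R * diagonal (fun j => (lf (d 0) (b j) : ℂ)) * Rᴴ := ⟨_, rfl⟩
    obtain ⟨Q, hQ⟩ : ∃ Q, Q = R * diagonal (fun j => (lf (d 1) (b j) : ℂ)) * Rᴴ := ⟨_, rfl⟩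
    have hT00 : ∀ i, (T * diagonal (fun j => (lf (d 0) (b j) : ℂ)) * Rᴴ) i 0 = 0 :=
      fun i => H.off_self i 0
    have hT11 : ∀ i, (T * diagonal (fun j => (lf (d 1) (b j) : ℂ)) * Rᴴ) i 1 = 0 :=
      fun i => H.off_self i 1
    have hσe : ((d 0 * starRingEnd ℂ (d 1)).im : ℂ)
        = (d 0 * starRingEnd ℂ (d 1) - starRingEnd ℂ (d 0) * d 1) / (2 * Complex.I) := by
      rw [Complex.im_eq_sub_conj]
      simp
    have hnum : d 0 * starRingEnd ℂ (d 1) - starRingEnd ℂ (d 0) * d 1 ≠ 0 := by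
      intro h
      rw [h, zero_div] at hσe
      exact hσ (by exact_mod_cast hσe)
    have h2I : (2 * Complex.I)⁻¹ ≠ 0 := inv_ne_zero (by simp)
    have c0 : d 1 - starRingEnd ℂ (d 1) * d 0 ^ 2 ≠ 0 := by
      intro h
      apply hnum
      have h3 := H.hd 0
      apply mul_left_cancel₀ (hd0 0)
      linear_combination -h + d 1 * (-h3)
    have c1 : d 0 - starRingEnd ℂ (d 0) * d 1 ^ 2 ≠ 0 := by
      intro h
      apply hnum
      have h3 := H.hd 1
      apply mul_left_cancel₀ (hd0 1)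
      linear_combination h + d 0 * h3
    by_cases h10 : Q 1 0 = 0
    · left
      apply H.inter 0
      intro i
      have h1 := H.commute (fun j => (lf (d 0) (b j) : ℂ)) (fun j => (lf (d 1) (b j) : ℂ))
        (fun i => (lf (d 0) (a i) : ℂ)) (fun i => (lf (d 1) (a i) : ℂ)) (H.comp (d 0))
        (H.comp (d 1)) i 0
      rw [Fin.sum_univ_two, Fin.sum_univ_two, hT00 i, hT11 i, ← hP, ← hQ, h10, H.off] at h1
      rw [← hP]
      have h4 : ((2 * Complex.I)⁻¹ * (d 1 - starRingEnd ℂ (d 1) * d 0 ^ 2)) ≠ 0 :=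
        mul_ne_zero h2I c0
      apply mul_left_cancel₀ h4
      linear_combination h1
    · by_cases h01 : P 0 1 = 0
      · left
        apply H.inter 1
        intro i
        have h1 := H.commute (fun j => (lf (d 0) (b j) : ℂ)) (fun j => (lf (d 1) (b j) : ℂ))
          (fun i => (lf (d 0) (a i) : ℂ)) (fun i => (lf (d 1) (a i) : ℂ)) (H.comp (d 0))
          (H.comp (d 1)) i 1
        rw [Fin.sum_univ_two, Fin.sum_univ_two, hT00 i, hT11 i, ← hP, ← hQ, h01, H.off] at h1
        rw [← hQ]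
        have h4 : ((2 * Complex.I)⁻¹ * (d 0 - starRingEnd ℂ (d 0) * d 1 ^ 2)) ≠ 0 :=
          mul_ne_zero h2I c1
        apply mul_left_cancel₀ h4
        linear_combination -h1
      · right
        exact hyp_case H hcard _ rfl hσ P Q hP hQ h01 h10

end

end Pool.Agent.Helper41.NC
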